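import Pool.Agent.helper33.SP.SpecC1S

/-!
# Project sp, module UJ10: outside connections see a gate only through its bit
-/

namespace TP

open DP MeasureTheory

/-- A connection in the box between two points of the outer circle stays in the annulus or both
points are in crossing clusters. -/
theorem UJ10_cross {c : V → Bool} {x u v : V} {m n : ℕ} (hmn : m < n) (hu : u ∈ bd x n)
    (hv : v ∈ bd x n) (h : Conn c true (box x n) u v) :
    Conn c true (ann x m n) u v ∨ ((∃ p ∈ bd x m, Conn c true (ann x m n) p u) ∧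
      ∃ q ∈ bd x m, Conn c true (ann x m n) q v) := by
  have hu' : sd x u = n := hu
  have hv' : sd x v = n := hv
  have key : Conn c true (ann x m n) u v ∨ ((∃ p ∈ bd x m, Conn c true (ann x m n) p u) ∧
      (m ≤ sd x v → ∃ q ∈ bd x m, Conn c true (ann x m n) q v)) := by
    refine Con.induct h (fun z => Conn c true (ann x m n) u z ∨
      ((∃ p ∈ bd x m, Conn c true (ann x m n) p u) ∧
      (m ≤ sd x z → ∃ q ∈ bd x m, Conn c true (ann x m n) q z))) ?_ ?_
    · left
      exact DP.Con.refl ⟨⟨by omega, by omega⟩, h.colour_left⟩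
    · rintro a b ⟨ha1, ha2⟩ ⟨hb1, hb2⟩ hab _ ih
      have h1 : sd x b ≤ n := hb1
      have h2 : sd x a ≤ n := ha1
      have h3 := hab.sd_le x
      have h4 := hab.symm.sd_le x
      rcases ih with ih | ⟨ih1, ih2⟩
      · by_cases hm : m ≤ sd x b
        · left
          exact DP.Con.tail ih hab ⟨⟨hm, h1⟩, hb2⟩
        · right
          have h5 : m ≤ sd x a := (ih.mem_right).1
          exact ⟨⟨a, show sd x a = m by omega, ih.symm⟩, fun h6 => absurd h6 hm⟩
      · right
        refine ⟨ih1, fun hm => ?_⟩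
        by_cases ha : m ≤ sd x a
        · obtain ⟨q, hq1, hq2⟩ := ih2 ha
          exact ⟨q, hq1, DP.Con.tail hq2 hab ⟨⟨hm, h1⟩, hb2⟩⟩
        · exact ⟨b, show sd x b = m by omega, DP.Con.refl ⟨⟨hm, h1⟩, hb2⟩⟩
  rcases key with h1 | ⟨h1, h2⟩
  · exact Or.inl h1
  · exact Or.inr ⟨h1, h2 (by omega)⟩

/-- Connections in the box between points of the outer circle. -/
theorem UJ10_box {c c' : V → Bool} {x u v : V} {m n : ℕ} (hmn : m < n) (hG : ¬ Three c x m n)
    (hc : ∀ v, m ≤ sd x v → c v = c' v) (hb : hb c x m n → hb c' x m n) (hu : u ∈ bd x n)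
    (hv : v ∈ bd x n) (h : Conn c true (box x n) u v) : Conn c' true (box x n) u v := by
  have hcA : ∀ v ∈ ann x m n, c v = c' v := fun v hv => hc v hv.1
  have hA : ∀ {a b : V}, Conn c true (ann x m n) a b ↔ Conn c' true (ann x m n) a b :=
    fun {a b} => Conn.congr hcA
  have hsub : ann x m n ⊆ box x n := ann_subset_box x m n
  by_cases huv : Conn c true (ann x m n) u v
  · exact (hA.1 huv).mono hsub
  · rcases UJ10_cross hmn hu hv h with h1 | ⟨⟨p, hp, hpu⟩, q, hq, hqv⟩
    · exact absurd h1 huv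
    · obtain ⟨u', hu', v', hv', ⟨p', hp', hpu'⟩, ⟨q', hq', hqv'⟩, huv', hbox⟩ :=
        hb ⟨u, hu, v, hv, ⟨p, hp, hpu⟩, ⟨q, hq, hqv⟩, huv, h⟩
      rw [← hA] at hpu' hqv' huv'
      have hpq : ¬ Conn c true (ann x m n) p q := fun h1 => huv ((hpu.symm.trans h1).trans hqv)
      have hpq' : ¬ Conn c true (ann x m n) p' q' := fun h1 =>
        huv' ((hpu'.symm.trans h1).trans hqv')
      have key : ∀ r ∈ bd x m, (∃ r' ∈ bd x n, Conn c true (ann x m n) r r') →
          Conn c true (ann x m n) p r ∨ Conn c true (ann x m n) q r := by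
        intro r hr hr'
        by_contra hcon
        rw [not_or] at hcon
        exact hG ⟨p, hp, q, hq, r, hr, ⟨u, hu, hpu⟩, ⟨v, hv, hqv⟩, hr', hpq, hcon.2, hcon.1⟩
      rcases key p' hp' ⟨u', hu', hpu'⟩ with h1 | h1
      · rcases key q' hq' ⟨v', hv', hqv'⟩ with h2 | h2
        · exact absurd (h1.symm.trans h2) hpq'
        · have e1 : Conn c' true (box x n) u u' :=
            (hA.1 ((hpu.symm.trans h1).trans hpu')).mono hsub
          have e2 : Conn c' true (box x n) v' v :=
            (hA.1 ((hqv'.symm.trans h2.symm).trans hqv)).mono hsub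
          exact (e1.trans hbox).trans e2
      · rcases key q' hq' ⟨v', hv', hqv'⟩ with h2 | h2
        · have e1 : Conn c' true (box x n) u v' :=
            (hA.1 ((hpu.symm.trans h2).trans hqv')).mono hsub
          have e2 : Conn c' true (box x n) u' v :=
            (hA.1 ((hpu'.symm.trans h1.symm).trans hqv)).mono hsub
          exact (e1.trans hbox.symm).trans e2
        · exact absurd (h1.symm.trans h2) hpq'

theorem UJ10_one {c c' : V → Bool} {R : Set V} {x s t : V} {m n : ℕ} (hmn : m < n)
    (hG : ¬ Three c x m n) (hc : ∀ v, m ≤ sd x v → c v = c' v) (hb : hb c x m n → hb c' x m n)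
    (hR : box x n ⊆ R) (hs : n ≤ sd x s) (ht : n ≤ sd x t) (h : Conn c true R s t) :
    Conn c' true R s t := by
  have key : (n ≤ sd x t → Conn c' true R s t) ∧ (sd x t < n →
      ∃ u ∈ bd x n, Conn c' true R s u ∧ Conn c true (box x n) u t) := by
    refine Con.induct h (fun z => (n ≤ sd x z → Conn c' true R s z) ∧ (sd x z < n →
      ∃ u ∈ bd x n, Conn c' true R s u ∧ Conn c true (box x n) u z)) ?_ ?_
    · refine ⟨fun _ => DP.Con.refl ⟨h.mem_left, ?_⟩, fun h1 => absurd hs (by omega)⟩
      rw [← hc s (by omega)]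
      exact h.colour_left
    · rintro a b ⟨ha1, ha2⟩ ⟨hb1, hb2⟩ hab _ ⟨ih1, ih2⟩
      have h3 := hab.sd_le x
      have h4 := hab.symm.sd_le x
      constructor
      · intro hbn
        have hb2' : c' b = true := by
          rw [← hc b (by omega)]
          exact hb2
        by_cases ha : n ≤ sd x a
        · exact DP.Con.tail (ih1 ha) hab ⟨hb1, hb2'⟩
        · obtain ⟨u, hu, hu1, hu2⟩ := ih2 (by omega)
          have hbb : b ∈ bd x n := show sd x b = n by omega
          have h5 : Conn c true (box x n) u b :=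
            DP.Con.tail hu2 hab ⟨show sd x b ≤ n by omega, hb2⟩
          exact hu1.trans ((UJ10_box hmn hG hc hb hu hbb h5).mono hR)
      · intro hbn
        by_cases ha : n ≤ sd x a
        · have haa : sd x a = n := by omega
          refine ⟨a, haa, ih1 ha, ?_⟩
          exact DP.Con.single ⟨show sd x a ≤ n by omega, ha2⟩ hab ⟨show sd x b ≤ n by omega, hb2⟩
        · obtain ⟨u, hu, hu1, hu2⟩ := ih2 (by omega)
          exact ⟨u, hu, hu1, DP.Con.tail hu2 hab ⟨show sd x b ≤ n by omega, hb2⟩⟩
  exact key.1 ht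

theorem UJ10 : UJ10_stmt := by
  intro c c' R x s t m n hm hmn hG hc hb hR hs ht
  have hA : ∀ {a b : V}, Conn c true (ann x m n) a b ↔ Conn c' true (ann x m n) a b :=
    fun {a b} => Conn.congr fun v hv => hc v hv.1
  have hG' : ¬ Three c' x m n := by
    intro h3
    apply hG.2
    unfold Three at h3 ⊢
    simpa only [hA] using h3
  constructor
  · exact UJ10_one hmn hG.2 hc hb.1 hR hs ht
  · exact UJ10_one hmn hG' (fun v hv => (hc v hv).symm) hb.2 hR hs ht

end TP
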