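import Pool.Agent.helper96.SP.SpecTB
import Pool.Agent.helper33.SP.SpecC1

/-!
# Project sp: six standard arms in the form used by the part C2P

`SxB` is the black part (increasing), `SxW` the white part (decreasing).
-/

namespace TP

open DP MeasureTheory

/-- Region of the standard arm number `i`: the annulus minus the boxes around the standard points
in conflict (other colour or partner), at both radii. -/
def Rg (x : V) (m n : ℕ) (i : ℕ) : Set V :=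
  {v | v ∈ ann x m n ∧ ∀ j < 6, conf i j → m / 8 < sd (zp6 x m j) v ∧ n / 8 < sd (zp6 x n j) v}

/-- Region on which the standard arms of colour `k` depend. -/
def RgC (x : V) (m n : ℕ) (k : Bool) : Set V :=
  {v | v ∈ ann x m n ∧ ∀ j < 6, kol6 j ≠ k → m / 8 < sd (zp6 x m j) v ∧ n / 8 < sd (zp6 x n j) v}

/-- Six standard arms in `ann x m n`, black part: connected black sets `U i`, `i = 0, 1, 3, 4`, from
the window of spot `i` at radius `m` to the one at radius `n`; the two sets of one sector have no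
common brick. -/
def SxB (c : V → Bool) (x : V) (m n : ℕ) : Prop :=
  ∃ U : ℕ → Set V, BDis (U 0) (U 1) ∧ BDis (U 3) (U 4) ∧ ∀ i < 6, kol6 i = true →
    (∀ v ∈ U i, c v = true ∧ v ∈ Rg x m n i) ∧
    ∃ p ∈ bd x m, ∃ u ∈ bd x n, sd (zp6 x m i) p ≤ m / 64 ∧ sd (zp6 x n i) u ≤ n / 64 ∧
      Con (U i) p u

/-- White part: the arms `2` and `5`. -/
def SxW (c : V → Bool) (x : V) (m n : ℕ) : Prop :=
  ∀ i < 6, kol6 i = false → ∃ p ∈ bd x m, ∃ u ∈ bd x n, sd (zp6 x m i) p ≤ m / 64 ∧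
    sd (zp6 x n i) u ≤ n / 64 ∧ Conn c false (Rg x m n i) p u

theorem SixC_Rg_sub {x : V} {m n i : ℕ} : Rg x m n i ⊆ RgC x m n (kol6 i) := by
  rintro v ⟨h1, h2⟩
  refine ⟨h1, fun j hj hk => h2 j hj ⟨?_, Or.inl fun e => hk e.symm⟩⟩
  rintro rfl
  exact hk rfl

theorem SixC_RgC_finite (x : V) (m n : ℕ) (k : Bool) : (RgC x m n k).Finite :=
  (ann_finite x m n).subset fun _ h => h.1

theorem SxB_congr {c c' : V → Bool} {x : V} {m n : ℕ} (h : ∀ v ∈ RgC x m n true, c v = c' v)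
    (hB : SxB c x m n) : SxB c' x m n := by
  obtain ⟨U, h1, h2, h3⟩ := hB
  refine ⟨U, h1, h2, fun i hi hk => ?_⟩
  obtain ⟨h4, h5⟩ := h3 i hi hk
  refine ⟨fun v hv => ⟨?_, (h4 v hv).2⟩, h5⟩
  have := SixC_Rg_sub (h4 v hv).2
  rw [hk] at this
  rw [← h v this]
  exact (h4 v hv).1

theorem SxW_congr {c c' : V → Bool} {x : V} {m n : ℕ} (h : ∀ v ∈ RgC x m n false, c v = c' v)
    (hW : SxW c x m n) : SxW c' x m n := by
  intro i hi hk
  obtain ⟨p, hp, u, hu, h1, h2, h3⟩ := hW i hi hk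
  refine ⟨p, hp, u, hu, h1, h2, (Conn.congr fun v hv => ?_).1 h3⟩
  have := SixC_Rg_sub hv
  rw [hk] at this
  exact h v this

theorem SxB_loc (x : V) (m n : ℕ) : Loc (Ev fun c => SxB c x m n) (RgC x m n true) :=
  Loc.ev (SixC_RgC_finite x m n true) fun _ _ h =>
    ⟨SxB_congr h, SxB_congr fun v hv => (h v hv).symm⟩

theorem SxW_loc (x : V) (m n : ℕ) : Loc (Ev fun c => SxW c x m n) (RgC x m n false) :=
  Loc.ev (SixC_RgC_finite x m n false) fun _ _ h =>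
    ⟨SxW_congr h, SxW_congr fun v hv => (h v hv).symm⟩

theorem SxB_mono {c c' : V → Bool} {x : V} {m n : ℕ} (h : ∀ v, c v = true → c' v = true)
    (hB : SxB c x m n) : SxB c' x m n := by
  obtain ⟨U, h1, h2, h3⟩ := hB
  refine ⟨U, h1, h2, fun i hi hk => ?_⟩
  obtain ⟨h4, h5⟩ := h3 i hi hk
  exact ⟨fun v hv => ⟨h v (h4 v hv).1, (h4 v hv).2⟩, h5⟩

theorem SxW_mono {c c' : V → Bool} {x : V} {m n : ℕ} (h : ∀ v, c v = false → c' v = false)
    (hW : SxW c x m n) : SxW c' x m n := by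
  intro i hi hk
  obtain ⟨p, hp, u, hu, h1, h2, h3⟩ := hW i hi hk
  exact ⟨p, hp, u, hu, h1, h2, Conn.colour_mono (fun v _ => h v) h3⟩

theorem SxB_mon (x : V) (m n : ℕ) : Mon true (Ev fun c => SxB c x m n) :=
  Mon.ev fun _ _ h => SxB_mono h

theorem SxW_mon (x : V) (m n : ℕ) : Mon false (Ev fun c => SxW c x m n) :=
  Mon.ev fun _ _ h => SxW_mono h

theorem SixC_rg {x v : V} {m n i : ℕ} (hmn : m ≤ n) (h : v ∈ rg6 x (std6 x n) (std6 x m) i) :
    v ∈ Rg x m n i := by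
  obtain ⟨h1, h2, h3⟩ := h
  refine ⟨?_, fun j hj hc => ⟨?_, ?_⟩⟩
  · have e1 : min (std6 x n).n (std6 x m).n = m := min_eq_right hmn
    have e2 : max (std6 x n).n (std6 x m).n = n := max_eq_left hmn
    rw [e1, e2] at h1
    exact h1
  · by_contra hlt
    exact h3 ⟨j, hj, hc, not_lt.1 hlt⟩
  · by_contra hlt
    exact h2 ⟨j, hj, hc, not_lt.1 hlt⟩

theorem SixStd.toB {c : V → Bool} {x : V} {m n : ℕ} (hmn : m ≤ n) (h : SixStd c x m n) :
    SxB c x m n := by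
  obtain ⟨⟨l, h1, h2⟩, -⟩ := h
  refine ⟨fun i => {v | v ∈ l i}, ?_, ?_, fun i hi hk => ?_⟩
  · exact h2 0 (by norm_num) 1 (by norm_num) (by decide) (by decide) ⟨by norm_num, Or.inr rfl⟩
  · exact h2 3 (by norm_num) 4 (by norm_num) (by decide) (by decide) ⟨by norm_num, Or.inr rfl⟩
  · obtain ⟨p, u, hp, hp', hu, hu', hl⟩ := h1 i hi hk
    refine ⟨fun v hv => ?_, p, hp, u, hu, hp', hu', hl.self.con⟩
    have := hl.subset v hv
    exact ⟨this.2, SixC_rg hmn this.1⟩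

theorem SixStd.toW {c : V → Bool} {x : V} {m n : ℕ} (hmn : m ≤ n) (h : SixStd c x m n) :
    SxW c x m n := by
  obtain ⟨-, l, h1, h2⟩ := h
  intro i hi hk
  obtain ⟨p, u, hp, hp', hu, hu', hl⟩ := h1 i hi hk
  refine ⟨p, hp, u, hu, hp', hu', hl.con.mono fun v hv => ?_⟩
  exact ⟨SixC_rg hmn hv.1, hv.2⟩

/-! ## Translation -/

theorem SixC_sd (x u v : V) : sd (u.1 + x.1, u.2 + x.2) (v.1 + x.1, v.2 + x.2) = sd u v := by
  unfold sd
  simp

theorem SixC_zp (x : V) (n i : ℕ) :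
    zp6 x n i = ((zp6 0 n i).1 + x.1, (zp6 0 n i).2 + x.2) := by
  unfold zp6
  split_ifs <;> simp [add_comm, sub_eq_add_neg, add_left_comm]

theorem SixC_adj {x : V} (hx : (x.1 + x.2) % 2 = 0) {u v : V} (h : Adj u v) :
    Adj (u.1 + x.1, u.2 + x.2) (v.1 + x.1, v.2 + x.2) := by
  obtain ⟨h1, h2⟩ := h
  refine ⟨by rw [SixC_sd]; exact h1, ?_⟩
  rcases h2 with h2 | h2 | h2
  · left; simp only; omega
  · right; left; simp only; omega
  · right; right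
    rw [Int.even_iff] at h2 ⊢
    simp only
    omega

theorem SixC_con {x : V} (hx : (x.1 + x.2) % 2 = 0) {W : Set V} {u v : V} (h : Con W u v) :
    Con {w | (w.1 - x.1, w.2 - x.2) ∈ W} (u.1 + x.1, u.2 + x.2) (v.1 + x.1, v.2 + x.2) := by
  refine Con.induct h (fun z => Con {w | (w.1 - x.1, w.2 - x.2) ∈ W} (u.1 + x.1, u.2 + x.2)
    (z.1 + x.1, z.2 + x.2)) ?_ ?_
  · refine DP.Con.refl ?_
    simpa using h.mem_left
  · intro a b _ hb hab _ ih
    refine DP.Con.tail ih (SixC_adj hx hab) ?_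
    simpa using hb

theorem SixC_Rg {x v : V} {m n i : ℕ} (h : v ∈ Rg 0 m n i) :
    ((v.1 + x.1, v.2 + x.2) : V) ∈ Rg x m n i := by
  have h0 : ∀ w : V, sd x (w.1 + x.1, w.2 + x.2) = sd 0 w := by
    intro w
    have := SixC_sd x 0 w
    simpa using this
  refine ⟨⟨?_, ?_⟩, fun j hj hc => ?_⟩
  · rw [h0]; exact h.1.1
  · rw [h0]; exact h.1.2
  · rw [SixC_zp x, SixC_zp x n, SixC_sd, SixC_sd]
    exact h.2 j hj hc

theorem SixC_bd {x v : V} {n : ℕ} (h : v ∈ bd 0 n) : ((v.1 + x.1, v.2 + x.2) : V) ∈ bd x n := by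
  have := SixC_sd x 0 v
  simp only [Prod.fst_zero, zero_add, Prod.snd_zero] at this
  show sd x _ = n
  rw [show sd x (v.1 + x.1, v.2 + x.2) = sd 0 v from by simpa using this]
  exact h

theorem SixC_brick {x : V} (hx : (x.1 + x.2) % 2 = 0) (v : V) :
    br (v.1 - x.1, v.2 - x.2) = ((br v).1 - x.1, (br v).2 - x.2) := by
  unfold br
  have e : (v.1 - x.1 + (v.2 - x.2)) % 2 = (v.1 + v.2) % 2 := by omega
  simp only [e]
  split_ifs
  · rfl
  · simp only [Prod.mk.injEq, and_true]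
    ring

theorem SixC_B {x : V} (hx : (x.1 + x.2) % 2 = 0) {c : V → Bool} {m n : ℕ}
    (h : SxB (fun v => c (v.1 + x.1, v.2 + x.2)) 0 m n) : SxB c x m n := by
  obtain ⟨U, h1, h2, h3⟩ := h
  have hBD : ∀ A B : Set V, BDis A B →
      BDis {w | (w.1 - x.1, w.2 - x.2) ∈ A} {w | (w.1 - x.1, w.2 - x.2) ∈ B} := by
    intro A B hAB v hv w hw e
    apply hAB _ hv _ hw
    rw [SixC_brick hx, SixC_brick hx, e]
  refine ⟨fun i => {w | (w.1 - x.1, w.2 - x.2) ∈ U i}, hBD _ _ h1, hBD _ _ h2, fun i hi hk => ?_⟩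
  obtain ⟨h4, p, hp, u, hu, h5, h6, h7⟩ := h3 i hi hk
  refine ⟨fun v hv => ?_, (p.1 + x.1, p.2 + x.2), SixC_bd hp, (u.1 + x.1, u.2 + x.2), SixC_bd hu,
    ?_, ?_, SixC_con hx h7⟩
  · obtain ⟨h8, h9⟩ := h4 _ hv
    have h10 := SixC_Rg (x := x) h9
    simp only [sub_add_cancel] at h8 h10
    exact ⟨h8, h10⟩
  · rw [SixC_zp x, SixC_sd]; exact h5
  · rw [SixC_zp x, SixC_sd]; exact h6

theorem SixC_W {x : V} (hx : (x.1 + x.2) % 2 = 0) {c : V → Bool} {m n : ℕ}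
    (h : SxW (fun v => c (v.1 + x.1, v.2 + x.2)) 0 m n) : SxW c x m n := by
  intro i hi hk
  obtain ⟨p, hp, u, hu, h5, h6, h7⟩ := h i hi hk
  refine ⟨(p.1 + x.1, p.2 + x.2), SixC_bd hp, (u.1 + x.1, u.2 + x.2), SixC_bd hu, ?_, ?_,
    (SixC_con hx h7).mono ?_⟩
  · rw [SixC_zp x, SixC_sd]; exact h5
  · rw [SixC_zp x, SixC_sd]; exact h6
  · rintro w ⟨hw1, hw2⟩
    have h10 := SixC_Rg (x := x) hw1
    simp only [sub_add_cancel] at hw2 h10
    exact ⟨h10, hw2⟩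

/-- The form of `TH_stmt` used by the part C2P. -/
def TH3_stmt : Prop :=
  ∃ C : ℝ, 0 < C ∧ ∃ k₀ : ℕ, ∀ (x : V) (p q : ℕ), (x.1 + x.2) % 2 = 0 → k₀ ≤ p → p + k₀ ≤ q →
    a6 p q ≤ C * Pr (Ev fun c => SxB c x (2 ^ (p - 1)) (2 ^ (q + 1)) ∧
      SxW c x (2 ^ (p - 1)) (2 ^ (q + 1)))

theorem TH3 (h7 : UI7_stmt) (hTH : TH_stmt) : TH3_stmt := by
  have : IsProbabilityMeasure P1 := by
    unfold P1
    infer_instance
  obtain ⟨C, hC, k₀, h⟩ := hTH
  refine ⟨C, hC, k₀, fun x p q hx hp hq => (h p q hp hq).trans ?_⟩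
  refine mul_le_mul_of_nonneg_left ?_ hC.le
  set m := 2 ^ (p - 1)
  have hmn : 2 ^ (p - 1) ≤ 2 ^ (q + 1) := Nat.pow_le_pow_right (by norm_num) (by omega)
  have h1 : Pr (Ev fun c => SixStd c 0 (2 ^ (p - 1)) (2 ^ (q + 1))) ≤
      Pr (Ev fun c => SxB c 0 (2 ^ (p - 1)) (2 ^ (q + 1)) ∧ SxW c 0 (2 ^ (p - 1)) (2 ^ (q + 1))) :=
    measureReal_mono (fun b hb => ⟨SixStd.toB hmn hb, SixStd.toW hmn hb⟩) (measure_ne_top _ _)
  have hloc : Loc (Ev fun c => SxB c 0 (2 ^ (p - 1)) (2 ^ (q + 1)) ∧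
      SxW c 0 (2 ^ (p - 1)) (2 ^ (q + 1))) Set.univ :=
    ((SxB_loc 0 _ _).inter (SxW_loc 0 _ _)).mono (Set.subset_univ _)
  have h2 := h7.1 _ x hx hloc
  refine h1.trans (le_of_eq_of_le h2.symm ?_)
  exact measureReal_mono (fun b hb => ⟨SixC_B hx hb.1, SixC_W hx hb.2⟩) (measure_ne_top _ _)

end TP
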