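import Pool.Agent.helper64.TP.SpecE
import Pool.Agent.helper64.TP.Conv
import Pool.Agent.helper49.SP.Defs

/-!
# Project sp, part TB: six arms `B B W B B W` with standard end points

Second half of the separation of thick arms (the first half is helper2's part TA, interface
`CUT6_stmt`). The arms are numbered `0, ..., 5` counterclockwise, of colours `B B W B B W`; the two
black arms `0, 1` (and `3, 4`) of one sector have no common brick. An end (`Sp6`) is a circle with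
six spots, an inner window `a` (where the arm arrives) and an outer window `A` (which the arms in
conflict avoid). Modules `TB1` ... `TB10`, `TH`, files `Pool/Agent/<seat>/SP/TB1.lean`, namespace `TP`. Any
statement of the TP and DP specifications may be a hypothesis (`DP.LH_stmt`, `DP.LC_stmt`,
`DP.CH1_stmt`, `DP.CH2_stmt`, `DP.CG1_stmt`, `DP.CG2_stmt`, `DP.RTA_stmt`, `Bgen_stmt`, `Bfkg_stmt`,
`C1_stmt`, ...).
-/

namespace TP

open DP MeasureTheory

/-! ## Definitions -/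

/-- Colours of the six arms: `B B W B B W`. -/
def kol6 (i : ℕ) : Bool := decide (i % 3 ≠ 2)

/-- Arms in conflict: different colours, or the two black arms of one sector. -/
def conf (i j : ℕ) : Prop := i ≠ j ∧ (kol6 i ≠ kol6 j ∨ i / 3 = j / 3)

/-- One end of the six arms: radius, spots, inner window, outer window. -/
structure Sp6 where
  /-- radius of the circle -/
  n : ℕ
  /-- spots -/
  y : ℕ → V
  /-- inner window -/
  a : ℕ
  /-- outer window -/
  A : ℕ

/-- The outer windows which arm `i` must avoid. -/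
def av6 (i : ℕ) (E : Sp6) : Set V := {v | ∃ j < 6, conf i j ∧ sd (E.y j) v ≤ E.A}

/-- Region of arm `i` between the two ends. -/
def rg6 (x : V) (E E' : Sp6) (i : ℕ) : Set V :=
  {v | v ∈ ann x (min E.n E'.n) (max E.n E'.n) ∧ v ∉ av6 i E ∧ v ∉ av6 i E'}

/-- The arms of colour `k` between the ends `E'` and `E`. -/
def Arm6 (c : V → Bool) (k : Bool) (x : V) (E E' : Sp6) : Prop :=
  ∃ l : ℕ → List V,
    (∀ i < 6, kol6 i = k → ∃ p u : V, p ∈ bd x E'.n ∧ sd (E'.y i) p ≤ E'.a ∧ u ∈ bd x E.n ∧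
      sd (E.y i) u ≤ E.a ∧ IsPath {v | v ∈ rg6 x E E' i ∧ c v = k} (l i) p u) ∧
    ∀ i < 6, ∀ j < 6, kol6 i = k → kol6 j = k → conf i j → BDis {v | v ∈ l i} {v | v ∈ l j}

/-- Six arms between the ends `E'` and `E`. -/
def SixM (c : V → Bool) (x : V) (E E' : Sp6) : Prop := Arm6 c true x E E' ∧ Arm6 c false x E E'

/-- Standard spots, counterclockwise: right-low, right-high, top, left-high, left-low, bottom. -/
def zp6 (x : V) (n : ℕ) (i : ℕ) : V :=
  if i = 0 then (x.1 + n, x.2 - (n / 2 : ℕ)) else if i = 1 then (x.1 + n, x.2 + (n / 2 : ℕ))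
    else if i = 2 then (x.1, x.2 + n) else if i = 3 then (x.1 - n, x.2 + (n / 2 : ℕ))
      else if i = 4 then (x.1 - n, x.2 - (n / 2 : ℕ)) else (x.1, x.2 - n)

/-- The standard end at radius `n`. -/
def std6 (x : V) (n : ℕ) : Sp6 := ⟨n, zp6 x n, n / 64, n / 8⟩

/-- Six arms in `ann x m n` with standard ends. -/
def SixStd (c : V → Bool) (x : V) (m n : ℕ) : Prop := SixM c x (std6 x n) (std6 x m)

/-- The six points of the circle are in counterclockwise order. -/
def Cyc6 (x : V) (n : ℕ) (y : ℕ → V) : Prop :=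
  ∃ L : ℕ → ℤ, (∀ i < 6, ∃ k : ℤ, L i = pos x n (y i) + 8 * n * k) ∧ (∀ i < 5, L i < L (i + 1)) ∧
    L 5 < L 0 + 8 * n

/-- Good ends at radius `2 ^ i`: separated spots in counterclockwise order. -/
structure Gd6 (x : V) (i d e η : ℕ) (E : Sp6) : Prop where
  n_eq : E.n = 2 ^ i
  a_eq : E.a = 2 ^ (i - η)
  A_eq : E.A = 2 ^ (i - e)
  mem : ∀ l < 6, E.y l ∈ bd x (2 ^ i)
  cyc : Cyc6 x (2 ^ i) E.y
  sep : ∀ l < 6, ∀ l' < 6, l ≠ l' → 2 ^ (i - d) ≤ sd (E.y l) (E.y l')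

/-- The other end `E'` is far from the circle of radius `2 ^ i` (inside for `s = true`). -/
structure Far6 (s : Bool) (x : V) (i : ℕ) (E' : Sp6) : Prop where
  dist : if s = true then 4 * E'.n ≤ 2 ^ i else 4 * 2 ^ i ≤ E'.n
  mem : ∀ l < 6, E'.y l ∈ bd x E'.n
  win : 2 * E'.A ≤ E'.n

/-- Discrete curves from the spots `y l` of `bd x (2 ^ i)` to beyond the next circle
(`nx s (2 ^ i)`), through its standard spots. Steps `2 ^ (i - h)`; near the starting circle they stay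
at distance `2 ^ (i - e)` of the spots; they stay away from the big loops (scale `2 ^ (i - η)`) around
the other spots. -/
structure Cur (s : Bool) (x : V) (i e η h T : ℕ) (y : ℕ → V) (f : ℕ → ℕ → V) : Prop where
  zero : ∀ l < 6, f l 0 = y l
  step : ∀ l < 6, ∀ t < T, sd (f l t) (f l (t + 1)) ≤ 2 ^ (i - h)
  last : ∀ l < 6, (if s = true then nx s (2 ^ i) + 4 * 2 ^ (i - h) ≤ sd x (f l T)
    else sd x (f l T) + 4 * 2 ^ (i - h) ≤ nx s (2 ^ i))
  near : ∀ l < 6, ∀ t ≤ T, ∀ v, sd (f l t) v ≤ 5 * 2 ^ (i - h) → v ∈ HS s x (2 ^ i) →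
    sd (y l) v ≤ 2 ^ (i - e)
  std : ∀ l < 6, ∀ t ≤ T, ∀ v, sd (f l t) v ≤ 5 * 2 ^ (i - h) → v ∈ bd x (nx s (2 ^ i)) →
    sd (zp6 x (nx s (2 ^ i)) l) v ≤ nx s (2 ^ i) / 64
  oth : ∀ l < 6, ∀ l' < 6, l' ≠ l → ∀ t ≤ T, ∀ v, sd (f l t) v ≤ 5 * 2 ^ (i - h) →
    nx s (2 ^ i) / 8 < sd (zp6 x (nx s (2 ^ i)) l') v
  sep : ∀ l < 6, ∀ l' < 6, l' ≠ l → ∀ t ≤ T, ∀ t' ≤ T, 10 * 2 ^ (i - h) < sd (f l t) (f l' t')
  big : ∀ l < 6, ∀ l' < 6, l' ≠ l → ∀ t ≤ T,
    3 * 2 ^ (i - η) + 6 * 2 ^ (i - h) ≤ sd (y l) (f l' t)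

/-- Routes: chains of cells of size `2 ^ (i - h)` along such curves. -/
structure Rts (s : Bool) (x : V) (i e η h K : ℕ) (y : ℕ → V) (gs : ℕ → List V) : Prop where
  chn : ∀ l < 6, Chn (2 ^ (i - h)) (gs l)
  hd : ∀ l < 6, (gs l).head? = some (y l)
  len : ∀ l < 6, (gs l).length ≤ K
  last : ∀ l < 6, ∃ g : V, (gs l).getLast? = some g ∧
    (if s = true then nx s (2 ^ i) + 3 * 2 ^ (i - h) ≤ sd x g
      else sd x g + 3 * 2 ^ (i - h) ≤ nx s (2 ^ i))
  near : ∀ l < 6, ∀ g ∈ gs l, ∀ v, sd g v ≤ 3 * 2 ^ (i - h) → v ∈ HS s x (2 ^ i) →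
    sd (y l) v ≤ 2 ^ (i - e)
  std : ∀ l < 6, ∀ g ∈ gs l, ∀ v, sd g v ≤ 3 * 2 ^ (i - h) → v ∈ bd x (nx s (2 ^ i)) →
    sd (zp6 x (nx s (2 ^ i)) l) v ≤ nx s (2 ^ i) / 64
  oth : ∀ l < 6, ∀ l' < 6, l' ≠ l → ∀ g ∈ gs l, ∀ v, sd g v ≤ 3 * 2 ^ (i - h) →
    nx s (2 ^ i) / 8 < sd (zp6 x (nx s (2 ^ i)) l') v
  sep : ∀ l < 6, ∀ l' < 6, l' ≠ l → ∀ v ∈ reg (2 ^ (i - h)) (gs l),
    ∀ w ∈ reg (2 ^ (i - h)) (gs l'), 2 ≤ sd v w
  big : ∀ l < 6, ∀ l' < 6, l' ≠ l → ∀ v ∈ reg (2 ^ (i - h)) (gs l'),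
    3 * 2 ^ (i - η) + 2 ≤ sd (y l) v

/-! ## Geometry -/

/-- TB1. Curves from separated spots to the standard spots; big loops of scale `4 * 2 ^ (i - h)`.
Copy of `DP.RTB` (`Pool/Agent/helper98/DP/RTB.lean`, with `RTBCore`, `RTBCurve`, `RTBPolar`): the
lifted positions `L` of `Cyc6` (shifted by a multiple of `8 n` such that `0 < L 0 ≤ 8 n`) give the
starting angles `Θ l = L l / n`, the target angles are `Τ l = 1/2, 3/2, 3, 9/2, 11/2, 7` (differences
between `1` and `13/2`), so `Θ` and `Τ` are separated in the same order and `Sep` holds for all pairs.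
`cond_C` is needed for target angles at distance `≥ 1` (instead of `2`): `E_sep` gives distance `≥ 1/2`
of the unit vectors, more than `1/8`. `cond_D` gives distance `≥ n / (75 * 2 ^ e)`, about
`54 * 2 ^ (i - h)` in `DP.RTB`, enough for `sep` and `big` (`18 * 2 ^ (i - h)`). The last point has
radius `9 n / 4` (`s = true`) or `3 n / 8`. -/
def TB1_stmt : Prop :=
  ∀ d e : ℕ, d ≤ e → ∃ h T i₁ : ℕ, e + 8 ≤ h ∧ h ≤ i₁ ∧ ∀ (s : Bool) (x : V) (i : ℕ)
    (y : ℕ → V), i₁ ≤ i → (∀ l < 6, y l ∈ bd x (2 ^ i)) → Cyc6 x (2 ^ i) y →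
    (∀ l < 6, ∀ l' < 6, l ≠ l' → 2 ^ (i - d) ≤ sd (y l) (y l')) →
      ∃ f : ℕ → ℕ → V, Cur s x i e (h - 2) h T y f

/-- TB2. Radial curves from the standard spots to the next standard spots: as `TB1` with starting
angles `Θ l = Τ l`; then the curve `l'` stays at distance at least `n / 8` of the spot `l`
(`lower_rad`, `lower_ang`, `E_sep`). Big loops of scale `n / 64`. (Or directly with integers: the
points `(r, - r / 2)`, `(r, r / 2)`, `(0, r)`, ...) -/
def TB2_stmt : Prop :=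
  ∃ h T i₁ : ℕ, 11 ≤ h ∧ h ≤ i₁ ∧ ∀ (s : Bool) (x : V) (i : ℕ), i₁ ≤ i →
    ∃ f : ℕ → ℕ → V, Cur s x i 3 6 h T (zp6 x (2 ^ i)) f

/-- TB3. From curves to chains of cells. From `DP.RTA_stmt`, exactly as `TP.SE2_RT` in
`Pool/Agent/helper96/TP/SE2.lean` (`K = 2 T + 1`; cells are within `2 * 2 ^ (i - h)` of the curve, the
last one within `2 ^ (i - h)` of `f l T`). -/
def TB3_stmt : Prop :=
  ∀ (s : Bool) (x : V) (i e η h T : ℕ) (y : ℕ → V) (f : ℕ → ℕ → V), h ≤ i →
    Cur s x i e η h T y f → ∃ gs : ℕ → List V, Rts s x i e η h (2 * T + 1) y gs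

/-- TB4. The standard end is good, and far from other circles. (`pos` of the spots: `n / 2, 3 n / 2,
3 n, 9 n / 2, 11 n / 2, 7 n`; all distances are at least `n`.) -/
def TB4_stmt : Prop :=
  ∀ (x : V) (i : ℕ), 6 ≤ i → Gd6 x i 0 3 6 (std6 x (2 ^ i)) ∧
    (∀ j, i + 2 ≤ j → Far6 true x j (std6 x (2 ^ i))) ∧
      ∀ j, j + 2 ≤ i → Far6 false x j (std6 x (2 ^ i))

/-! ## Deterministic extension -/

/-- TB5. One arm. A path of colour `k` from far away (distance at least `3 a` from the spot `y`,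
`a = 2 ^ (i - η)`) to within `a` of `y`, a loop of scale `a` around `y`, loops in a chain of small
cells from `y` to beyond the next circle: there is a path from `p` to a point `w` of the next circle,
its sites are on the old path, on the big loop or in the chain. Proof: the path crosses the big loop
`S` (`LH`), the connected set `U` of the chain (`CH1`) crosses it as well (`LH`; the loop of the first
cell is within `3 * 2 ^ (i - h) ≤ a` of `y` and the loop of the last cell is beyond the next circle),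
`S` is connected (`LC`); so `p` is connected in the union to a point beyond the next circle; take the
first point `w` on the next circle (`Con.exit`, `Con.enter` of `DP/Basic`) and `Con.exists_path`. The
point `w` is in the chain since the old path and the big loop do not meet the next circle. -/
def TB5_stmt : Prop :=
  ∀ (c : V → Bool) (k s : Bool) (x y p u : V) (i η h : ℕ) (l : List V) (gs : List V),
    3 ≤ η → η + 2 ≤ h → h ≤ i → y ∈ bd x (2 ^ i) →
    sd y u ≤ 2 ^ (i - η) → 3 * 2 ^ (i - η) ≤ sd y p →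
    IsPath {v | v ∈ HS s x (2 ^ i) ∧ c v = k} l p u → (∃ S, Loop c k y (2 ^ (i - η)) S) →
    Full c k (2 ^ (i - h)) gs → Chn (2 ^ (i - h)) gs → gs.head? = some y →
    (∃ g : V, gs.getLast? = some g ∧ (if s = true then nx s (2 ^ i) + 3 * 2 ^ (i - h) ≤ sd x g
      else sd x g + 3 * 2 ^ (i - h) ≤ nx s (2 ^ i))) →
      ∃ (w : V) (l' : List V), w ∈ bd x (nx s (2 ^ i)) ∧ w ∈ reg (2 ^ (i - h)) gs ∧
        IsPath {v | c v = k ∧ v ∈ HS s x (nx s (2 ^ i)) ∧
          (v ∈ l ∨ sd y v < 3 * 2 ^ (i - η) ∨ v ∈ reg (2 ^ (i - h)) gs)} l' p w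

/-- TB6. All arms of colour `k`. For each `l` with `kol6 l = k` apply `TB5` (`rg6 x E E' l ⊆ HS`).
The new path avoids the outer windows of `E'` in conflict (the old path by hypothesis; route and big
loop are at radius `≥ 2 ^ i - 2 ^ (i - e)` resp. `≤ 2 ^ i + 2 ^ (i - e)`, the windows of `E'` at
radius `≤ 3/2 E'.n ≤ 3/8 2 ^ i` resp. `≥ 2 * 2 ^ i`) and those of the next circle (`Rts.oth` for the
route; the old path and the big loop are far from the next circle). Brick-disjointness for `l, l'` in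
conflict (`br_eq_sd`: sites of one brick have distance at most one): old paths: given; old path `l`
and big loop or route `l'`: a brick mate in `HS` of such a site has distance at most `E.A` from
`E.y l'` (`Rts.near`, `3 a ≤ E.A`), but the old path `l` avoids this window; two big loops: `Gd6.sep`;
big loop and route: `Rts.big`; two routes: `Rts.sep`. -/
def TB6_stmt : Prop :=
  ∀ (c : V → Bool) (k s : Bool) (x : V) (i d e η h K : ℕ) (E E' : Sp6) (gs : ℕ → List V),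
    d + 3 ≤ η → e + 2 ≤ η → 3 ≤ e → η + 2 ≤ h → h ≤ i → Gd6 x i d e η E →
    Far6 s x i E' → Rts s x i e η h K E.y gs → Arm6 c k x E E' →
    (∀ l < 6, kol6 l = k → (∃ S, Loop c k (E.y l) E.a S) ∧ Full c k (2 ^ (i - h)) (gs l)) →
      Arm6 c k x (std6 x (nx s (2 ^ i))) E'

/-! ## Probability -/

/-- Region on which the arms of colour `k` depend. -/
def AR6 (x : V) (E E' : Sp6) (k : Bool) : Set V :=
  {v | v ∈ ann x (min E.n E'.n) (max E.n E'.n) ∧
    ∀ j < 6, kol6 j ≠ k → E.A < sd (E.y j) v ∧ E'.A < sd (E'.y j) v}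

/-- TB7. Locality, monotonicity, symmetry in the two ends (reverse the paths). -/
def TB7_stmt : Prop :=
  (∀ (k : Bool) (x : V) (E E' : Sp6), Loc (Ev fun c => Arm6 c k x E E') (AR6 x E E' k) ∧
    Mon k (Ev fun c => Arm6 c k x E E')) ∧
  ∀ (c : V → Bool) (x : V) (E E' : Sp6), SixM c x E E' ↔ SixM c x E' E

/-- TB8. One step at one end. Copy of the second half of `TP.SE2`
(`Pool/Agent/helper96/TP/SE2.lean`), or `TP.SE1_gen` of `Pool/Agent/helper1/TP/SE1.lean`:
`Bgen_stmt` with `ρ = 0`, `X = X' = univ`, `Ep`, `Em` the arms of colour true, false (`TB7`), `Up`,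
`Um` the big loops `Loop c k (E.y l) E.a` and the chains `Full c k (2 ^ (i - h)) (gs l)` of the black,
white spots (at most `6 (K + 1)` loops, each of probability at least `c₀` by `C1_stmt`; FKG:
`Bfkg_stmt` or `TP.TFK` of helper61; `CH3`, `CH4` of the port); `TB6` for both colours. A brick mate in
`HS` of a site of a loop or route of colour `k'` at the spot `l` is in the window `E.A` of this spot,
which the arms of the other colour avoid. `C` depends only on `K`. -/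
def TB8_stmt : Prop :=
  ∀ K : ℕ, ∃ C : ℝ, 0 < C ∧ ∃ ℓ₀ : ℕ, ∀ (s : Bool) (x : V) (i d e η h : ℕ) (E E' : Sp6)
    (gs : ℕ → List V), d + 3 ≤ η → e + 2 ≤ η → 3 ≤ e → η + 2 ≤ h → h ≤ i →
    ℓ₀ ≤ 2 ^ (i - h) → Gd6 x i d e η E → Far6 s x i E' → Rts s x i e η h K E.y gs →
      Pr (Ev fun c => SixM c x E E') ≤
        C * Pr (Ev fun c => SixM c x (std6 x (nx s (2 ^ i))) E')

/-- TB9. The two cases of a step: from arbitrary separated spots (`TB1`, `TB3`, `TB8`; `η = h - 2`) and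
from standard spots (`TB2`, `TB3`, `TB4`, `TB8`). -/
def TB9_stmt : Prop :=
  (∀ d e : ℕ, d ≤ e → 3 ≤ e → ∃ η : ℕ, e + 2 ≤ η ∧ ∃ C : ℝ, 0 < C ∧ ∃ i₁ : ℕ, ∀ (s : Bool)
    (x : V) (i : ℕ) (E E' : Sp6), i₁ ≤ i → Gd6 x i d e η E → Far6 s x i E' →
      Pr (Ev fun c => SixM c x E E') ≤
        C * Pr (Ev fun c => SixM c x (std6 x (nx s (2 ^ i))) E')) ∧
  ∃ C : ℝ, 0 < C ∧ ∃ i₁ : ℕ, ∀ (s : Bool) (x : V) (i : ℕ) (E' : Sp6), i₁ ≤ i → Far6 s x i E' →
    Pr (Ev fun c => SixM c x (std6 x (2 ^ i)) E') ≤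
      C * Pr (Ev fun c => SixM c x (std6 x (nx s (2 ^ i))) E')

/-- TB10. Lower bound at a bounded ratio. Six chains of cells of size `ℓ = 2 ^ (p - 8)`, `m = 2 ^ p`:
right-low (relative to `x`) `(m/2, -m/2) → (12 m, -m/2) → (12 m, -8 m) → (17 m, -8 m)`, the others by
the reflections `y ↦ -y`, `x ↦ -x`; top `(0, m/2) → (0, 17 m)`, bottom `(0, -m/2) → (0, -17 m)`. All
coordinates are multiples of `2 ℓ`. The connected set of chain `l` meets `bd x m` and `bd x (16 m)`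
only within the standard windows of spot `l`, avoids all other windows, and the six regions have
distance at least two. `CH1`, `CH2`, `Con.cross`, `Con.exists_path`; probability: `CH3` for each
colour, and independence (`Bindep`, `BDis.of_sd`) or `Bgen`. -/
def TB10_stmt : Prop :=
  ∃ b : ℝ, 0 < b ∧ ∃ i₁ : ℕ, ∀ (x : V) (p : ℕ), i₁ ≤ p →
    b ≤ Pr (Ev fun c => SixStd c x (2 ^ p) (2 ^ (p + 4)))

/-! ## Conclusion -/

/-- The first half of the separation (part TA, helper2). -/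
def CUT6_stmt : Prop :=
  ∀ ε : ℝ, 0 < ε → ∃ d e : ℕ, d ≤ e ∧ 3 ≤ e ∧ ∀ η : ℕ, e + 2 ≤ η → ∃ C : ℝ, 0 < C ∧
    ∃ i₁ : ℕ, ∀ p q : ℕ, i₁ ≤ p → p + i₁ ≤ q → ∃ E E' : Sp6, Gd6 0 q d e η E ∧ Gd6 0 p d e η E' ∧
      a6 p q ≤ C * Pr (Ev fun c => SixM c 0 E E') + ε * (a6 p (q - 1) + a6 (p + 1) q)

/-- TH, SEPARATION OF THICK ARMS. With `g p q = Pr (SixStd c 0 (2 ^ p) (2 ^ q))`: `CUT6` and `TB9`
(first part) at both ends (`TB7` symmetry, `TB4`: the outer end is standard when the inner one is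
treated) give `a6 p q ≤ C₁ g (p - 1) (q + 1) + ε (a6 p (q - 1) + a6 (p + 1) q)`; `TB9` (second part) and
`TB7` give `g (p - 1) q ≤ C₂ g (p - 1) (q + 1)` and `g p (q + 1) ≤ C₂ g (p - 1) (q + 1)`; choose
`ε = 1 / (4 C₂)` first, then `a6 p q ≤ C g (p - 1) (q + 1)` for all `q - p ≥ i₁` by induction on
`q - p`, `C = max (2 C₁) (...)`; the case `q - p = i₁` is bounded below by `TB10` and `TB9`
(`a6 ≤ 1`). -/
def TH_stmt : Prop :=
  ∃ C : ℝ, 0 < C ∧ ∃ k₀ : ℕ, ∀ p q : ℕ, k₀ ≤ p → p + k₀ ≤ q →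
    a6 p q ≤ C * Pr (Ev fun c => SixStd c 0 (2 ^ (p - 1)) (2 ^ (q + 1)))

end TP
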