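import Pool.Agent.helper96.SP.SpecTB
import Pool.Agent.helper1.TP.SE1
import Pool.Agent.helper64.TP.BAll

/-!
# Project sp, module TB8: one step at one end
-/

namespace TP

open DP MeasureTheory

/-- The region of the big loop and of the route of one spot. -/
def TB8_Z (ℓ : ℕ) (E : Sp6) (gs : ℕ → List V) (l : ℕ) : Set V :=
  {v | sd (E.y l) v < 3 * E.a ∨ v ∈ reg ℓ (gs l)}

/-- All regions of one colour. -/
def TB8_S (k : Bool) (ℓ : ℕ) (E : Sp6) (gs : ℕ → List V) : Set V :=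
  {v | ∃ l < 6, kol6 l = k ∧ v ∈ TB8_Z ℓ E gs l}

/-- The loops of colour `k` of the spots below `m`. -/
def TB8_U (k : Bool) (ℓ : ℕ) (E : Sp6) (gs : ℕ → List V) (m : ℕ) : Set (V → Bool) :=
  Ev fun c => ∀ l < m, kol6 l = k → (∃ S, Loop c k (E.y l) E.a S) ∧ Full c k ℓ (gs l)

theorem TB8_U_zero {k : Bool} {ℓ : ℕ} {E : Sp6} {gs : ℕ → List V} :
    TB8_U k ℓ E gs 0 = Set.univ := by
  ext b
  constructor
  · intro _
    trivial
  · intro _ l hl
    omega

theorem TB8_single (c : V → Bool) (k : Bool) (g : V) (a : ℕ) :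
    Full c k a [g] ↔ ∃ S, Loop c k g a S := by
  unfold Full
  simp

theorem TB8_reg_single (g : V) (a : ℕ) : reg a [g] = {v | sd g v < 3 * a} := by
  ext v
  unfold reg
  simp

theorem TB8_U_succ_pos {k : Bool} {ℓ : ℕ} {E : Sp6} {gs : ℕ → List V} {m : ℕ} (h : kol6 m = k) :
    TB8_U k ℓ E gs (m + 1) = TB8_U k ℓ E gs m ∩ ((Ev fun c => Full c k E.a [E.y m]) ∩
      Ev fun c => Full c k ℓ (gs m)) := by
  ext b
  constructor
  · intro hb
    have h1 := hb m (by omega) h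
    exact ⟨fun l hl => hb l (by omega), (TB8_single _ _ _ _).2 h1.1, h1.2⟩
  · rintro ⟨h1, h2, h3⟩ l hl hk
    rcases Nat.lt_succ_iff_lt_or_eq.1 hl with h4 | h4
    · exact h1 l h4 hk
    · rw [h4]
      exact ⟨(TB8_single _ _ _ _).1 h2, h3⟩

theorem TB8_U_succ_neg {k : Bool} {ℓ : ℕ} {E : Sp6} {gs : ℕ → List V} {m : ℕ} (h : kol6 m ≠ k) :
    TB8_U k ℓ E gs (m + 1) = TB8_U k ℓ E gs m := by
  ext b
  constructor
  · intro hb l hl
    exact hb l (by omega)
  · intro h1 l hl hk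
    rcases Nat.lt_succ_iff_lt_or_eq.1 hl with h3 | h3
    · exact h1 l h3 hk
    · rw [h3] at hk; exact absurd hk h

theorem TB8_U_loc (hCH4 : CH4_stmt) (k : Bool) (ℓ : ℕ) (E : Sp6) (gs : ℕ → List V) :
    ∀ m ≤ 6, Loc (TB8_U k ℓ E gs m) (TB8_S k ℓ E gs) := by
  intro m
  induction m with
  | zero => intro _; rw [TB8_U_zero]; exact Loc.univ _
  | succ m ih =>
    intro hm
    by_cases h : kol6 m = k
    · rw [TB8_U_succ_pos h]
      refine Loc.mono ((ih (by omega)).inter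
        ((hCH4 E.a k [E.y m]).1.inter (hCH4 ℓ k (gs m)).1)) ?_
      rintro v (hv | hv | hv)
      · exact hv
      · rw [TB8_reg_single] at hv
        exact ⟨m, by omega, h, Or.inl hv⟩
      · exact ⟨m, by omega, h, Or.inr hv⟩
    · rw [TB8_U_succ_neg h]
      exact ih (by omega)

theorem TB8_U_mon (hCH4 : CH4_stmt) (k : Bool) (ℓ : ℕ) (E : Sp6) (gs : ℕ → List V) (m : ℕ) :
    Mon k (TB8_U k ℓ E gs m) := fun b b' hb hall l hl hk => by
  obtain ⟨h1, h2⟩ := hall l hl hk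
  refine ⟨?_, (hCH4 ℓ k (gs l)).2 b b' hb h2⟩
  exact (TB8_single _ _ _ _).1 ((hCH4 E.a k [E.y l]).2 b b' hb ((TB8_single _ _ _ _).2 h1))

theorem TB8_Q0 {F : Set (V → Bool)} {A : Set V} (hF : Loc F A) :
    Q (fun _ => 0) F F = Pr F := by
  rw [Bzero (fun _ => 0) F F A hF hF (fun _ _ => rfl), Set.inter_self]

theorem TB8_Q_univ (ρ : V → ℝ) : Q ρ Set.univ Set.univ = 1 := by
  have : IsProbabilityMeasure (PP ρ) := by
    unfold PP
    infer_instance
  unfold Q
  simp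

theorem TB8_U_prob (hCH3 : CH3_stmt) (hCH4 : CH4_stmt) (c₀ : ℝ) (h0 : 0 ≤ c₀)
    (h1 : c₀ ≤ 1) (k : Bool) (ℓ : ℕ) (E : Sp6) (gs : ℕ → List V)
    (hC : ∀ g, c₀ ≤ Pr (Ev fun c => ∃ S, Loop c k g ℓ S))
    (hC' : ∀ g, c₀ ≤ Pr (Ev fun c => ∃ S, Loop c k g E.a S)) (K : ℕ)
    (hK : ∀ l < 6, (gs l).length ≤ K) :
    ∀ m ≤ 6, c₀ ^ ((2 * K + 2) * m) ≤
      Q (fun _ => 0) (TB8_U k ℓ E gs m) (TB8_U k ℓ E gs m) := by
  have hρ : Profile (fun _ => 0) := fun _ => ⟨le_rfl, zero_le_one⟩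
  intro m
  induction m with
  | zero =>
    intro _
    rw [TB8_U_zero, TB8_Q_univ]
    simp
  | succ m ih =>
    intro hm
    have ihm := ih (by omega)
    by_cases h : kol6 m = k
    · rw [TB8_U_succ_pos h]
      have h2 := hCH3 c₀ ℓ k (fun _ => 0) (gs m) hρ h0 hC
      have h2' := hCH3 c₀ E.a k (fun _ => 0) [E.y m] hρ h0 hC'
      simp only [List.length_singleton, mul_one] at h2'
      have h3 : c₀ ^ (2 * K) ≤ c₀ ^ (2 * (gs m).length) :=
        pow_le_pow_of_le_one h0 h1 (by have := hK m (by omega); omega)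
      have h4 : c₀ ^ ((2 * K + 2) * (m + 1)) =
          c₀ ^ ((2 * K + 2) * m) * (c₀ ^ 2 * c₀ ^ (2 * K)) := by
        rw [← pow_add, ← pow_add]; congr 1; ring
      rw [h4]
      have hF1 := hCH4 E.a k [E.y m]
      have hF2 := hCH4 ℓ k (gs m)
      have hl1 : Loc (Ev fun c => Full c k E.a [E.y m]) Set.univ := hF1.1.mono (Set.subset_univ _)
      have hl2 : Loc (Ev fun c => Full c k ℓ (gs m)) Set.univ := hF2.1.mono (Set.subset_univ _)
      have hl12 : Loc ((Ev fun c => Full c k E.a [E.y m]) ∩ Ev fun c => Full c k ℓ (gs m))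
          Set.univ := (hl1.inter hl2).mono (Set.subset_univ _)
      have hfk := Bfkg (fun _ => 0) k _ _ Set.univ hl1 hl2 hF1.2 hF2.2
      have hm12 : Mon k ((Ev fun c => Full c k E.a [E.y m]) ∩ Ev fun c => Full c k ℓ (gs m)) :=
        hF1.2.inter hF2.2
      refine le_trans ?_ (Bfkg (fun _ => 0) k _ _ Set.univ
        ((TB8_U_loc hCH4 k ℓ E gs m (by omega)).mono (Set.subset_univ _)) hl12
        (TB8_U_mon hCH4 k ℓ E gs m) hm12)
      refine mul_le_mul ihm ?_ (by positivity) (le_trans (by positivity) ihm)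
      refine le_trans ?_ hfk
      exact mul_le_mul h2' (h3.trans h2) (pow_nonneg h0 _) (le_trans (pow_nonneg h0 _) h2')
    · rw [TB8_U_succ_neg h]
      refine le_trans ?_ ihm
      exact pow_le_pow_of_le_one h0 h1 (Nat.mul_le_mul_left _ (by omega))

theorem TB8 (hC1 : C1_stmt) (hCH3 : CH3_stmt) (hCH4 : CH4_stmt) (h6 : TB6_stmt)
    (h7 : TB7_stmt) : TB8_stmt := by
  obtain ⟨c₀, hc₀, ℓ₀, hℓ₀, hC⟩ := hC1
  have hP1 : IsProbabilityMeasure P1 := by
    unfold P1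
    infer_instance
  have hc1 : c₀ ≤ 1 := le_trans (hC true (0, 0) ℓ₀ le_rfl) measureReal_le_one
  intro K
  refine ⟨1 / (c₀ ^ ((2 * K + 2) * 6) * c₀ ^ ((2 * K + 2) * 6)), by positivity, ℓ₀, ?_⟩
  intro s x i d e η h E E' gs hd he he3 hηh hhi hℓ hG hF hR
  set ℓ := 2 ^ (i - h) with hℓdef
  have hℓ1 : 1 ≤ ℓ := Nat.one_le_two_pow
  have ha1 : 1 ≤ E.a := by rw [hG.a_eq]; exact Nat.one_le_two_pow
  have haℓ : ℓ ≤ E.a := by
    rw [hG.a_eq]
    exact Nat.pow_le_pow_right (by norm_num) (by omega)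
  have haA : 3 * E.a + 1 ≤ E.A := by
    rw [hG.a_eq, hG.A_eq]
    have h1 : 4 * 2 ^ (i - η) ≤ 2 ^ (i - e) := by
      rw [show 4 * 2 ^ (i - η) = 2 ^ (i - η + 2) by rw [pow_add]; ring]
      exact Nat.pow_le_pow_right (by norm_num) (by omega)
    have h2 : 1 ≤ 2 ^ (i - η) := Nat.one_le_two_pow
    omega
  have had : ∀ l < 6, ∀ l' < 6, l ≠ l' → 6 * E.a + 2 ≤ sd (E.y l) (E.y l') := by
    intro l hl l' hl' hne
    refine le_trans ?_ (hG.sep l hl l' hl' hne)
    rw [hG.a_eq]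
    have h1 : 8 * 2 ^ (i - η) ≤ 2 ^ (i - d) := by
      rw [show 8 * 2 ^ (i - η) = 2 ^ (i - η + 3) by rw [pow_add]; ring]
      exact Nat.pow_le_pow_right (by norm_num) (by omega)
    have h2 : 1 ≤ 2 ^ (i - η) := Nat.one_le_two_pow
    omega
  have hbig : ∀ l < 6, ∀ l' < 6, l' ≠ l → ∀ v ∈ reg ℓ (gs l'), 3 * E.a + 2 ≤ sd (E.y l) v := by
    intro l hl l' hl' hne v hv
    rw [hG.a_eq]
    exact hR.big l hl l' hl' hne v hv
  -- regions of different spots
  have hZ : ∀ l < 6, ∀ l' < 6, l ≠ l' → ∀ v ∈ TB8_Z ℓ E gs l, ∀ w ∈ TB8_Z ℓ E gs l',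
      2 ≤ sd v w := by
    intro l hl l' hl' hne v hv w hw
    rcases hv with hv | hv
    · rcases hw with hw | hw
      · have h1 := had l hl l' hl' hne
        have h2 := sd_triangle (E.y l) v (E.y l')
        have h3 := sd_triangle v w (E.y l')
        rw [sd_comm w] at h3
        omega
      · have h1 := hbig l hl l' hl' hne.symm w hw
        have h2 := sd_triangle (E.y l) v w
        omega
    · rcases hw with hw | hw
      · have h1 := hbig l' hl' l hl hne v hv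
        have h2 := sd_triangle (E.y l') w v
        rw [sd_comm w v] at h2
        omega
      · exact hR.sep l hl l' hl' hne.symm v hv w hw
  have hSS : BDis (TB8_S true ℓ E gs) (TB8_S false ℓ E gs) := by
    refine BDis.of_sd ?_
    rintro v ⟨l, hl, hk, hv⟩ w ⟨l', hl', hk', hw⟩
    refine hZ l hl l' hl' ?_ v hv w hw
    rintro rfl
    rw [hk] at hk'
    exact absurd hk' (by simp)
  -- the arms avoid the regions of the other colour
  have hHS : ∀ v ∈ ann x (min E.n E'.n) (max E.n E'.n), v ∈ HS s x (2 ^ i) := by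
    intro v hv
    have h1 : min E.n E'.n ≤ sd x v := hv.1
    have h2 : sd x v ≤ max E.n E'.n := hv.2
    have h3 := hF.dist
    rw [hG.n_eq] at h1 h2
    have h0 : 1 ≤ 2 ^ i := Nat.one_le_two_pow
    unfold HS
    cases s with
    | true =>
      simp only [if_true] at h3 ⊢
      show sd x v ≤ 2 ^ i
      omega
    | false =>
      simp only [Bool.false_eq_true, if_false] at h3 ⊢
      show 2 ^ i ≤ sd x v
      omega
  have hav : ∀ k, BDis (AR6 x E E' k) (TB8_S (!k) ℓ E gs) := by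
    rintro k v ⟨hv1, hv2⟩ w ⟨l, hl, hk, hw⟩ hvw
    have h1 := br_eq_sd hvw
    have h2 : E.A < sd (E.y l) v := (hv2 l hl (by rw [hk]; cases k <;> simp)).1
    rcases hw with hw | ⟨g, hg, hgw⟩
    · have h3 := sd_triangle (E.y l) w v
      rw [sd_comm w v] at h3
      omega
    · have h3 := sd_triangle g w v
      rw [sd_comm w v] at h3
      have h4 := hR.near l hl g hg v (by omega) (hHS v hv1)
      rw [← hG.A_eq] at h4
      omega
  have hloc : ∀ k, Loc (Ev fun c => Arm6 c k x E E') (AR6 x E E' k) := fun k => (h7.1 k x E E').1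
  have hmon : ∀ k, Mon k (Ev fun c => Arm6 c k x E E') := fun k => (h7.1 k x E E').2
  have hU : ∀ k, Loc (TB8_U k ℓ E gs 6) (TB8_S k ℓ E gs) := fun k => TB8_U_loc hCH4 k ℓ E gs 6 le_rfl
  have hG' := SE1_gen Bgen (fun _ => 0) Set.univ Set.univ (Ev fun c => Arm6 c true x E E')
    (Ev fun c => Arm6 c false x E E') (TB8_U true ℓ E gs 6) (TB8_U false ℓ E gs 6) ∅ ∅
    (AR6 x E E' true) (AR6 x E E' false) (TB8_S true ℓ E gs) (TB8_S false ℓ E gs) hSS
    (fun v hv => hv.elim) (fun v hv => hv.elim) (fun v hv => hv.elim) (fun v hv => hv.elim)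
    (hav true) (hav false) (Loc.univ _) (Loc.univ _) (hloc true) (hloc false) (hU true) (hU false)
    (hmon true) (hmon false) (TB8_U_mon hCH4 true ℓ E gs 6) (TB8_U_mon hCH4 false ℓ E gs 6)
  simp only [Set.univ_inter] at hG'
  have hlocM : Loc ((Ev fun c => Arm6 c true x E E') ∩ Ev fun c => Arm6 c false x E E')
      Set.univ := ((hloc true).inter (hloc false)).mono (Set.subset_univ _)
  have hlocU : Loc (TB8_U true ℓ E gs 6 ∩ TB8_U false ℓ E gs 6) Set.univ :=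
    ((hU true).inter (hU false)).mono (Set.subset_univ _)
  rw [TB8_Q0 hlocM, TB8_Q0 ((hlocM.inter hlocU).mono (Set.subset_univ _))] at hG'
  have hq : ∀ k, c₀ ^ ((2 * K + 2) * 6) ≤
      Q (fun _ => 0) (TB8_U k ℓ E gs 6) (TB8_U k ℓ E gs 6) := fun k =>
    TB8_U_prob hCH3 hCH4 c₀ hc₀.le hc1 k ℓ E gs (fun g => hC k g ℓ hℓ)
      (fun g => hC k g E.a (hℓ.trans haℓ)) K hR.len 6 le_rfl
  have hsub : ((Ev fun c => Arm6 c true x E E') ∩ (Ev fun c => Arm6 c false x E E')) ∩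
      (TB8_U true ℓ E gs 6 ∩ TB8_U false ℓ E gs 6) ⊆
        Ev fun c => SixM c x (std6 x (nx s (2 ^ i))) E' := by
    rintro b ⟨⟨h1, h2⟩, h3, h4⟩
    exact ⟨h6 (col b) true s x i d e η h K E E' gs hd he he3 hηh hhi hG hF hR h1
        (fun l hl hk => h3 l hl hk),
      h6 (col b) false s x i d e η h K E E' gs hd he he3 hηh hhi hG hF hR h2
        (fun l hl hk => h4 l hl hk)⟩
  have hM : Pr (((Ev fun c => Arm6 c true x E E') ∩ (Ev fun c => Arm6 c false x E E')) ∩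
      (TB8_U true ℓ E gs 6 ∩ TB8_U false ℓ E gs 6)) ≤
        Pr (Ev fun c => SixM c x (std6 x (nx s (2 ^ i))) E') :=
    measureReal_mono hsub (measure_ne_top _ _)
  have hset : (Ev fun c => SixM c x E E') =
      (Ev fun c => Arm6 c true x E E') ∩ Ev fun c => Arm6 c false x E E' := rfl
  rw [hset]
  have hcp : 0 < c₀ ^ ((2 * K + 2) * 6) := by positivity
  have hQ0 : 0 ≤ Pr ((Ev fun c => Arm6 c true x E E') ∩ Ev fun c => Arm6 c false x E E') :=
    measureReal_nonneg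
  have hprod : c₀ ^ ((2 * K + 2) * 6) * c₀ ^ ((2 * K + 2) * 6) ≤
      Q (fun _ => 0) (TB8_U true ℓ E gs 6) (TB8_U true ℓ E gs 6) *
        Q (fun _ => 0) (TB8_U false ℓ E gs 6) (TB8_U false ℓ E gs 6) :=
    mul_le_mul (hq true) (hq false) hcp.le (hcp.le.trans (hq true))
  rw [one_div_mul_eq_div, le_div_iff₀ (by positivity)]
  exact le_trans (mul_le_mul_of_nonneg_left hprod hQ0) (hG'.trans hM)

end TP
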