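import Pool.Agent.helper96.SP.SpecTB

/-!
# Project sp, module TB9: the two cases of a step
-/

namespace TP

open DP MeasureTheory

theorem TB9 (h1 : TB1_stmt) (h2 : TB2_stmt) (h3 : TB3_stmt) (h4 : TB4_stmt) (h8 : TB8_stmt) :
    TB9_stmt := by
  constructor
  · intro d e hde he3
    obtain ⟨h, T, i₁, heh, hhi, hf⟩ := h1 d e hde
    obtain ⟨C, hC, ℓ₀, hC'⟩ := h8 (2 * T + 1)
    refine ⟨h - 2, by omega, C, hC, i₁ + h + ℓ₀, ?_⟩
    intro s x i E E' hi hG hF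
    obtain ⟨f, hf'⟩ := hf s x i E.y (by omega) hG.mem hG.cyc hG.sep
    obtain ⟨gs, hgs⟩ := h3 s x i e (h - 2) h T E.y f (by omega) hf'
    refine hC' s x i d e (h - 2) h E E' gs (by omega) (by omega) he3 (by omega) (by omega) ?_ hG hF hgs
    have h5 : ℓ₀ < 2 ^ ℓ₀ := Nat.lt_two_pow_self
    have h6 : 2 ^ ℓ₀ ≤ 2 ^ (i - h) := Nat.pow_le_pow_right (by norm_num) (by omega)
    omega
  · obtain ⟨h, T, i₁, heh, hhi, hf⟩ := h2
    obtain ⟨C, hC, ℓ₀, hC'⟩ := h8 (2 * T + 1)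
    refine ⟨C, hC, i₁ + h + ℓ₀, ?_⟩
    intro s x i E' hi hF
    obtain ⟨f, hf'⟩ := hf s x i (by omega)
    obtain ⟨gs, hgs⟩ := h3 s x i 3 6 h T _ f (by omega) hf'
    have hG := (h4 x i (by omega)).1
    refine hC' s x i 0 3 6 h (std6 x (2 ^ i)) E' gs (by omega) (by omega) le_rfl (by omega)
      (by omega) ?_ hG hF hgs
    have h5 : ℓ₀ < 2 ^ ℓ₀ := Nat.lt_two_pow_self
    have h6 : 2 ^ ℓ₀ ≤ 2 ^ (i - h) := Nat.pow_le_pow_right (by norm_num) (by omega)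
    omega

end TP
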