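import Pool.Agent.helper96.SP.SpecTB

/-!
# Project sp, module TH: separation of thick arms, conclusion
-/

namespace TP

open DP MeasureTheory

theorem TH_Pr_le_one (F : Set (V → Bool)) : Pr F ≤ 1 := by
  have : IsProbabilityMeasure P1 := by
    unfold P1
    infer_instance
  exact measureReal_le_one

theorem TH_nonneg (F : Set (V → Bool)) : 0 ≤ Pr F := measureReal_nonneg

theorem TH_sym (h7 : TB7_stmt) (x : V) (E E' : Sp6) :
    Pr (Ev fun c => SixM c x E E') = Pr (Ev fun c => SixM c x E' E) := by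
  have : (Ev fun c => SixM c x E E') = Ev fun c => SixM c x E' E := by
    ext b
    exact h7.2 (col b) x E E'
  rw [this]

theorem TH_nx_true (q : ℕ) : nx true (2 ^ q) = 2 ^ (q + 1) := by
  unfold nx
  rw [if_pos rfl, pow_succ]
  ring

theorem TH_nx_false (p : ℕ) (hp : 1 ≤ p) : nx false (2 ^ p) = 2 ^ (p - 1) := by
  unfold nx
  rw [if_neg (by simp)]
  obtain ⟨q, rfl⟩ : ∃ q, p = q + 1 := ⟨p - 1, by omega⟩
  rw [Nat.add_sub_cancel, pow_succ]
  omega

/-- The standard probability. -/
noncomputable def TH_g (p q : ℕ) : ℝ := Pr (Ev fun c => SixStd c 0 (2 ^ p) (2 ^ q))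

theorem TH (h4 : TB4_stmt) (h7 : TB7_stmt) (h9 : TB9_stmt) (h10 : TB10_stmt)
    (hCUT : CUT6_stmt) : TH_stmt := by
  obtain ⟨h9a, C₂, hC₂, j₂, h9b⟩ := h9
  obtain ⟨b, hb, j₁, h10⟩ := h10
  -- extension of the standard probability
  have hout : ∀ p q, j₂ + 6 ≤ p → p + 2 ≤ q → TH_g p q ≤ C₂ * TH_g p (q + 1) := by
    intro p q hp hq
    have h := h9b true 0 q (std6 0 (2 ^ p)) (by omega) ((h4 0 p (by omega)).2.1 q (by omega))
    rw [TH_nx_true] at h
    exact h
  have hinn : ∀ p q, j₂ + 6 ≤ p → p + 2 ≤ q → TH_g p q ≤ C₂ * TH_g (p - 1) q := by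
    intro p q hp hq
    have h := h9b false 0 p (std6 0 (2 ^ q)) (by omega) ((h4 0 q (by omega)).2.2 p (by omega))
    rw [TH_nx_false p (by omega), TH_sym h7, TH_sym h7 _ (std6 0 (2 ^ (p - 1)))] at h
    exact h
  -- the cut
  set ε : ℝ := 1 / (4 * C₂) with hε
  have hε0 : 0 < ε := by positivity
  obtain ⟨d, e, hde, he3, hcut⟩ := hCUT ε hε0
  obtain ⟨η, heη, C₁, hC₁, j₃, h9a⟩ := h9a d e hde he3
  obtain ⟨C₀, hC₀, i₁, hcut⟩ := hcut η heη
  -- both ends
  set N : ℕ := j₁ + j₂ + j₃ + i₁ + e + 10 with hN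
  have hmain : ∀ p q, N ≤ p → p + N ≤ q →
      a6 p q ≤ C₀ * (C₁ * C₁) * TH_g (p - 1) (q + 1) + ε * (a6 p (q - 1) + a6 (p + 1) q) := by
    intro p q hp hq
    obtain ⟨E, E', hE, hE', hle⟩ := hcut p q (by omega) (by omega)
    have hF : Far6 true 0 q E' := by
      refine ⟨?_, ?_, ?_⟩
      · rw [if_pos rfl, hE'.n_eq, show 4 * 2 ^ p = 2 ^ (p + 2) by rw [pow_add]; ring]
        exact Nat.pow_le_pow_right (by norm_num) (by omega)
      · intro l hl
        rw [hE'.n_eq]
        exact hE'.mem l hl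
      · rw [hE'.n_eq, hE'.A_eq, ← pow_succ']
        exact Nat.pow_le_pow_right (by norm_num) (by omega)
    have s1 := h9a true 0 q E E' (by omega) hE hF
    rw [TH_nx_true, TH_sym h7 _ (std6 0 (2 ^ (q + 1)))] at s1
    have s2 := h9a false 0 p E' (std6 0 (2 ^ (q + 1))) (by omega) hE'
      ((h4 0 (q + 1) (by omega)).2.2 p (by omega))
    rw [TH_nx_false p (by omega), TH_sym h7 _ (std6 0 (2 ^ (p - 1)))] at s2
    have s3 : Pr (Ev fun c => SixM c 0 E E') ≤ C₁ * C₁ * TH_g (p - 1) (q + 1) := by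
      refine s1.trans ?_
      rw [mul_assoc]
      exact mul_le_mul_of_nonneg_left s2 hC₁.le
    have s4 : C₀ * Pr (Ev fun c => SixM c 0 E E') ≤ C₀ * (C₁ * C₁) * TH_g (p - 1) (q + 1) := by
      rw [mul_assoc]
      exact mul_le_mul_of_nonneg_left s3 hC₀.le
    linarith
  -- lower bound at bounded ratio
  have hlow : ∀ k p, N ≤ p → b ≤ C₂ ^ k * TH_g p (p + 4 + k) := by
    intro k
    induction k with
    | zero =>
      intro p hp
      rw [pow_zero, one_mul]
      exact h10 0 p (by omega)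
    | succ k ih =>
      intro p hp
      refine (ih p hp).trans ?_
      have h := hout p (p + 4 + k) (by omega) (by omega)
      calc C₂ ^ k * TH_g p (p + 4 + k) ≤ C₂ ^ k * (C₂ * TH_g p (p + 4 + k + 1)) :=
            mul_le_mul_of_nonneg_left h (by positivity)
        _ = C₂ ^ (k + 1) * TH_g p (p + 4 + (k + 1)) := by rw [pow_succ]; ring_nf
  set C : ℝ := max (2 * (C₀ * (C₁ * C₁))) (C₂ ^ (N - 2) / b) with hC
  have hCpos : 0 < C := lt_of_lt_of_le (by positivity) (le_max_left _ _)
  have key : ∀ k p, N + 1 ≤ p → a6 p (p + N + k) ≤ C * TH_g (p - 1) (p + N + k + 1) := by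
    intro k
    induction k with
    | zero =>
      intro p hp
      have h := hlow (N - 2) (p - 1) (by omega)
      have e1 : p - 1 + 4 + (N - 2) = p + N + 0 + 1 := by omega
      rw [e1] at h
      have h1 : a6 p (p + N + 0) ≤ 1 := TH_Pr_le_one _
      have h2 : C₂ ^ (N - 2) / b ≤ C := le_max_right _ _
      have h3 : 0 ≤ TH_g (p - 1) (p + N + 0 + 1) := TH_nonneg _
      have h4 : 1 ≤ C₂ ^ (N - 2) / b * TH_g (p - 1) (p + N + 0 + 1) := by
        rw [div_mul_eq_mul_div, le_div_iff₀ hb]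
        linarith
      have h5 := mul_le_mul_of_nonneg_right h2 h3
      linarith
    | succ k ih =>
      intro p hp
      have h := hmain p (p + N + (k + 1)) (by omega) (by omega)
      have i1 := ih p hp
      have i2 := ih (p + 1) (by omega)
      have e1 : p + N + (k + 1) - 1 = p + N + k := by omega
      have e2 : p + 1 + N + k = p + N + (k + 1) := by omega
      have e3 : p + 1 - 1 = p := by omega
      rw [e1] at h
      rw [e2, e3] at i2
      have o1 := hout (p - 1) (p + N + k + 1) (by omega) (by omega)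
      have o2 := hinn p (p + N + (k + 1) + 1) (by omega) (by omega)
      have e4 : p + N + k + 1 + 1 = p + N + (k + 1) + 1 := by omega
      rw [e4] at o1
      set G := TH_g (p - 1) (p + N + (k + 1) + 1) with hG
      have hG0 : 0 ≤ G := TH_nonneg _
      have b1 : a6 p (p + N + k) ≤ C * (C₂ * G) :=
        i1.trans (mul_le_mul_of_nonneg_left o1 hCpos.le)
      have b2 : a6 (p + 1) (p + N + (k + 1)) ≤ C * (C₂ * G) :=
        i2.trans (mul_le_mul_of_nonneg_left o2 hCpos.le)
      have b3 : ε * (a6 p (p + N + k) + a6 (p + 1) (p + N + (k + 1))) ≤ C / 2 * G := by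
        have h6 : ε * (a6 p (p + N + k) + a6 (p + 1) (p + N + (k + 1))) ≤
            ε * (C * (C₂ * G) + C * (C₂ * G)) :=
          mul_le_mul_of_nonneg_left (add_le_add b1 b2) hε0.le
        refine h6.trans (le_of_eq ?_)
        rw [hε]
        field_simp
        ring
      have b4 : C₀ * (C₁ * C₁) * G ≤ C / 2 * G := by
        refine mul_le_mul_of_nonneg_right ?_ hG0
        have := le_max_left (2 * (C₀ * (C₁ * C₁))) (C₂ ^ (N - 2) / b)
        rw [← hC] at this
        linarith
      linarith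
  refine ⟨C, hCpos, N + 1, ?_⟩
  intro p q hp hq
  have h := key (q - p - N) p hp
  have e1 : p + N + (q - p - N) = q := by omega
  rw [e1] at h
  exact h

end TP
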