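import Pool.Agent.helper31.SP.SpecTL

/-!
# Project sp, module TL8: one step of the telescoping over the scales
-/

namespace TP

open DP MeasureTheory

theorem TL8_a4_anti (hAM : DP.AM_stmt) (m p : ℕ) (h : m ≤ p) : a4 m (p + 1) ≤ a4 m p := by
  have : IsProbabilityMeasure P1 := by
    unfold P1
    infer_instance
  unfold a4
  refine measureReal_mono ?_ (measure_ne_top _ _)
  intro b hb
  have h1 : ar 4 (col b) 0 (2 ^ m) (2 ^ (p + 1)) := by
    unfold ar
    rw [if_pos rfl]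
    exact hb
  have h2 := hAM (col b) 4 0 (2 ^ m) (2 ^ m) (2 ^ p) (2 ^ (p + 1)) (Or.inr rfl) le_rfl
    (Nat.pow_le_pow_right (by norm_num) h) (Nat.pow_le_pow_right (by norm_num) (by omega)) h1
  unfold ar at h2
  rw [if_pos rfl] at h2
  exact h2

theorem TL8_a4_le_one (p q : ℕ) : a4 p q ≤ 1 := by
  have : IsProbabilityMeasure P1 := by
    unfold P1
    infer_instance
  unfold a4 Pr
  exact measureReal_le_one

theorem TL8_card (h4 : TL4_stmt) (i k : ℕ) : ((BF i k).card : ℝ) ≤ 16 * 4 ^ i := by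
  classical
  refine le_trans ?_ (h4.2.2.1 i)
  have : (BF i k).card ≤ (VV i).card := by
    unfold BF
    exact Finset.card_le_card (Finset.filter_subset _ _)
  exact_mod_cast this

/-- The sum over the bulk. -/
theorem TL8_sum (h2 : TL2_stmt) (h4 : TL4_stmt) (i k : ℕ) (s s' B : ℝ) (hs : 0 ≤ s) (hss : s ≤ s')
    (hs1 : s' ≤ 1) (hB : 0 ≤ B)
    (h6 : ∀ v ∈ BF i k, Q (rB i k s) (Piv {v} (Fc i)) (Piv {v} (Fc i)) ≤ B) :
    Q (rB i k s) (Fc i) (Fc i) - Q (rB i k s') (Fc i) (Fc i) ≤ 4 * 4 ^ i * (s' * B) := by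
  classical
  have hp : ∀ r : ℝ, 0 ≤ r → r ≤ 1 → Profile (rB i k r) := by
    intro r h0 h1 v
    unfold rB
    split_ifs
    · exact ⟨h0, h1⟩
    · exact ⟨zero_le_one, le_rfl⟩
  have h := h2 (VV i) (Fc i) (rB i k s) (rB i k s') (h4.1 i) (hp s hs (hss.trans hs1))
    (hp s' (hs.trans hss) hs1) (by
      intro v _
      unfold rB
      split_ifs
      · exact hss
      · exact le_rfl)
  refine h.trans ?_
  have hterm : ∀ v ∈ VV i, (rB i k s' v - rB i k s v) *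
      Q (rB i k s) (Piv {v} (Fc i)) (Piv {v} (Fc i)) ≤ if v ∈ BF i k then s' * B else 0 := by
    intro v _
    by_cases hv : v ∈ BF i k
    · rw [if_pos hv]
      have e1 : rB i k s' v = s' := if_pos hv
      have e2 : rB i k s v = s := if_pos hv
      rw [e1, e2]
      have hq : 0 ≤ Q (rB i k s) (Piv {v} (Fc i)) (Piv {v} (Fc i)) := measureReal_nonneg
      calc (s' - s) * Q (rB i k s) (Piv {v} (Fc i)) (Piv {v} (Fc i))
          ≤ s' * Q (rB i k s) (Piv {v} (Fc i)) (Piv {v} (Fc i)) :=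
            mul_le_mul_of_nonneg_right (by linarith) hq
        _ ≤ s' * B := mul_le_mul_of_nonneg_left (h6 v hv) (hs.trans hss)
    · rw [if_neg hv]
      have e1 : rB i k s' v = 1 := if_neg hv
      have e2 : rB i k s v = 1 := if_neg hv
      rw [e1, e2]
      simp
  have hsum := Finset.sum_le_sum hterm
  have hcount : (∑ v ∈ VV i, if v ∈ BF i k then s' * B else 0) ≤ 16 * 4 ^ i * (s' * B) := by
    rw [← Finset.sum_filter, Finset.sum_const, nsmul_eq_mul]
    refine mul_le_mul_of_nonneg_right ?_ (mul_nonneg (hs.trans hss) hB)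
    refine le_trans ?_ (TL8_card h4 i k)
    have : ((VV i).filter fun v => v ∈ BF i k) ⊆ BF i k := by
      intro v hv
      exact (Finset.mem_filter.1 hv).2
    exact_mod_cast Finset.card_le_card this
  nlinarith [hsum.trans hcount]

theorem TL8 (hAM : DP.AM_stmt) (hanti : Banti_stmt) (h2 : TL2_stmt) (h4 : TL4_stmt)
    (h6 : TL6_stmt) : TL8_stmt := by
  intro m₀ k i₀ c₁ c₂ C hm₀ hc₁ hc₂ hC hmi H1 H2
  refine ⟨4 * c₁ * C * (2 : ℝ) ^ ((2 + c₂) * ((k : ℝ) + 2)) +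
    4 * C * (2 : ℝ) ^ ((2 + c₂) * ((k : ℝ) + 1) + 2 * (i₀ : ℝ)), by positivity, ?_⟩
  intro i p hip hpi
  have hprof : ∀ r : ℝ, 0 ≤ r → r ≤ 1 → Profile (rB i k r) := by
    intro r h0 h1 v
    unfold rB
    split_ifs
    · exact ⟨h0, h1⟩
    · exact ⟨zero_le_one, le_rfl⟩
  have hlow : ∀ r : ℝ, r ≤ 1 → ∀ w, r ≤ rB i k r w := by
    intro r h1 w
    unfold rB
    split_ifs
    · exact le_rfl
    · exact h1
  have h4i : (4 : ℝ) ^ i = (2 : ℝ) ^ (2 * (i : ℝ)) := by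
    rw [Real.rpow_mul (by norm_num), Real.rpow_two, ← Real.rpow_natCast]
    norm_num
  -- one-point bound
  have hone : ∀ q, i₀ ≤ q → q < i - k - 1 → ∀ v ∈ BF i k,
      Q (rB i k (sc c₁ m₀ q)) (Piv {v} (Fc i)) (Piv {v} (Fc i)) ≤
        C * (a4 m₀ q * (2 : ℝ) ^ (-((2 + c₂) * (((i - k - 1 : ℕ) : ℝ) - q)))) := by
    intro q hq hqi v hv
    obtain ⟨_, hs0, hs1⟩ := H1 q hq
    refine le_trans (h6 m₀ i k v (rB i k (sc c₁ m₀ q)) (sc c₁ m₀ q) hm₀ (by omega) hv
      (hprof _ hs0.le (by linarith)) hs0.le (by linarith) (hlow _ (by linarith))) ?_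
    exact H2 q (i - k - 1) hq hqi
  have hcast : ((i - k - 1 : ℕ) : ℝ) = (i : ℝ) - k - 1 := by
    rw [Nat.cast_sub (by omega), Nat.cast_sub (by omega)]
    simp
  have hK1 : 0 ≤ 4 * c₁ * C * (2 : ℝ) ^ ((2 + c₂) * ((k : ℝ) + 2)) := by positivity
  have hK2 : 0 ≤ 4 * C * (2 : ℝ) ^ ((2 + c₂) * ((k : ℝ) + 1) + 2 * (i₀ : ℝ)) := by positivity
  constructor
  · rcases le_total (sc c₁ m₀ (p + 1)) (sc c₁ m₀ p) with hle | hle
    · obtain ⟨ha0, hs0, hs1⟩ := H1 p hip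
      obtain ⟨ha0', hs0', hs1'⟩ := H1 (p + 1) (by omega)
      have hB := hone (p + 1) (by omega) (by omega)
      have hanti' := TL8_a4_anti hAM m₀ p (by omega)
      have hpw : 0 < (2 : ℝ) ^ (-((2 + c₂) * (((i - k - 1 : ℕ) : ℝ) - ((p + 1 : ℕ) : ℝ)))) := by
        positivity
      refine le_trans (TL8_sum h2 h4 i k _ _ _ hs0'.le hle (by linarith) (by positivity) hB) ?_
      refine le_trans ?_ (mul_le_mul_of_nonneg_right (le_add_of_nonneg_right hK2) (by positivity))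
      have e1 : sc c₁ m₀ p * (C * (a4 m₀ (p + 1) *
          (2 : ℝ) ^ (-((2 + c₂) * (((i - k - 1 : ℕ) : ℝ) - ((p + 1 : ℕ) : ℝ)))))) ≤
          c₁ / 4 ^ p * (C * (2 : ℝ) ^ (-((2 + c₂) * (((i - k - 1 : ℕ) : ℝ) - ((p + 1 : ℕ) : ℝ))))) := by
        have e2 : sc c₁ m₀ p * a4 m₀ p = c₁ / 4 ^ p := by
          unfold sc
          field_simp
        rw [← e2]
        have e3 : sc c₁ m₀ p * (C * (a4 m₀ (p + 1) *
          (2 : ℝ) ^ (-((2 + c₂) * (((i - k - 1 : ℕ) : ℝ) - ((p + 1 : ℕ) : ℝ)))))) =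
          sc c₁ m₀ p * a4 m₀ (p + 1) * (C *
          (2 : ℝ) ^ (-((2 + c₂) * (((i - k - 1 : ℕ) : ℝ) - ((p + 1 : ℕ) : ℝ))))) := by ring
        rw [e3]
        refine mul_le_mul_of_nonneg_right ?_ (by positivity)
        exact mul_le_mul_of_nonneg_left hanti' hs0.le
      refine le_trans (mul_le_mul_of_nonneg_left e1 (by positivity)) ?_
      have h4p : (4 : ℝ) ^ p = (2 : ℝ) ^ (2 * (p : ℝ)) := by
        rw [Real.rpow_mul (by norm_num), Real.rpow_two, ← Real.rpow_natCast]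
        norm_num
      rw [h4i, h4p, hcast]
      have e4 : 4 * (2 : ℝ) ^ (2 * (i : ℝ)) * (c₁ / (2 : ℝ) ^ (2 * (p : ℝ)) *
          (C * (2 : ℝ) ^ (-((2 + c₂) * ((i : ℝ) - k - 1 - ((p + 1 : ℕ) : ℝ)))))) =
          4 * c₁ * C * ((2 : ℝ) ^ (2 * (i : ℝ)) * (2 : ℝ) ^ (-(2 * (p : ℝ))) *
          (2 : ℝ) ^ (-((2 + c₂) * ((i : ℝ) - k - 1 - ((p + 1 : ℕ) : ℝ))))) := by
        rw [Real.rpow_neg (by norm_num : (0 : ℝ) ≤ 2) (2 * (p : ℝ))]
        field_simp
      rw [e4, ← Real.rpow_add (by norm_num), ← Real.rpow_add (by norm_num), mul_assoc (4 * c₁ * C),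
        ← Real.rpow_add (by norm_num)]
      refine mul_le_mul_of_nonneg_left ?_ (by positivity)
      refine le_of_eq ?_
      congr 1
      push_cast
      ring
    · have hb := hanti (rB i k (sc c₁ m₀ p)) (rB i k (sc c₁ m₀ (p + 1))) (Fc i) Set.univ
        (hprof _ (H1 p hip).2.1.le (by linarith [(H1 p hip).2.2]))
        (hprof _ (H1 (p + 1) (by omega)).2.1.le (by linarith [(H1 (p + 1) (by omega)).2.2]))
        (h4.2.1 i) (by
          intro v _
          unfold rB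
          split_ifs
          · exact hle
          · exact le_rfl)
      refine le_trans (sub_nonpos.2 hb) (by positivity)
  · obtain ⟨ha0, hs0, hs1⟩ := H1 i₀ le_rfl
    have hB := hone i₀ le_rfl (by omega)
    have hrB : rB i k 1 = fun _ => 1 := by
      funext v
      unfold rB
      split_ifs <;> rfl
    have h := TL8_sum h2 h4 i k (sc c₁ m₀ i₀) 1 _ hs0.le (by linarith) le_rfl (by positivity) hB
    rw [hrB] at h
    refine h.trans ?_
    refine le_trans ?_ (mul_le_mul_of_nonneg_right (le_add_of_nonneg_left hK1) (by positivity))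
    have e1 : 1 * (C * (a4 m₀ i₀ * (2 : ℝ) ^ (-((2 + c₂) * (((i - k - 1 : ℕ) : ℝ) - i₀))))) ≤
        C * (2 : ℝ) ^ (-((2 + c₂) * (((i - k - 1 : ℕ) : ℝ) - i₀))) := by
      rw [one_mul]
      refine mul_le_mul_of_nonneg_left ?_ hC.le
      exact mul_le_of_le_one_left (by positivity) (TL8_a4_le_one _ _)
    refine le_trans (mul_le_mul_of_nonneg_left e1 (by positivity)) ?_
    rw [h4i, hcast]
    have e4 : 4 * (2 : ℝ) ^ (2 * (i : ℝ)) * (C * (2 : ℝ) ^ (-((2 + c₂) * ((i : ℝ) - k - 1 - i₀)))) =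
        4 * C * ((2 : ℝ) ^ (2 * (i : ℝ)) * (2 : ℝ) ^ (-((2 + c₂) * ((i : ℝ) - k - 1 - i₀)))) := by
      ring
    rw [e4, ← Real.rpow_add (by norm_num), mul_assoc (4 * C), ← Real.rpow_add (by norm_num)]
    refine mul_le_mul_of_nonneg_left ?_ (by positivity)
    refine le_of_eq ?_
    congr 1
    ring

end TP
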