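import Pool.Agent.helper98.SP.N3
import Pool.Agent.helper98.SP.VA1
import Pool.Agent.helper33.SP.SpecC1
import Pool.Agent.helper96.DP.SpecF

/-!
# Project sp, module SIXU: the robust event `six` is at most as likely as three different black
crossing clusters (up to a constant)

For a set `K` of sites flip all coins of the bricks which do not meet `K` and its neighbours. The
event that `K` is a black crossing cluster is not changed. If `K` is a crossing cluster of `c'` and
the other crossing cluster of `c'` is not connected with `K`, whichever brick is recoloured black,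
then `c` (the flipped colouring) has three different black crossing clusters. Sum over `K`.
-/

set_option autoImplicit false

namespace TP

open DP MeasureTheory

/-- The law of the coins is invariant under flips (any event). -/
theorem SX_flip (B : Set V) (F : Set (V → Bool)) : Pr {b | flp B b ∈ F} = Pr F := by
  have h := (VA1_map B).map_eq
  have h2 : (Measure.map (VA1_equiv B) P1) F = P1 (VA1_equiv B ⁻¹' F) :=
    MeasurableEquiv.map_apply _ _
  have h3 : (Measure.map (VA1_equiv B) P1) = P1 := h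
  rw [h3] at h2
  rw [Pr, Pr, measureReal_def, measureReal_def, h2]
  rfl

theorem SX_mono {c c' : V → Bool} {k k' : Bool} {R : Set V} {u v : V}
    (h : ∀ a, c a = k → c' a = k') (hc : Conn c k R u v) : Conn c' k' R u v := by
  refine Con.mono ?_ hc
  intro a ha
  exact ⟨ha.1, h a ha.2⟩

/-- Left sites of the bricks which do not meet `K` and its neighbours. -/
def SX_B (x : V) (m n : ℕ) (K : Finset V) : Set V := {v | ∀ w ∈ N3_nb x m n K, br w ≠ v}

/-- `K` stays disconnected from some crossing site, whichever brick is recoloured black. -/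
def SX_R (c : V → Bool) (x : V) (m n : ℕ) (K : Finset V) : Prop :=
  ∃ q, c q = true ∧ inX c x m n q ∧
    ∀ v ∈ ann x m n, ∀ p ∈ K, ¬ Conn (rc c v true) true (ann x m n) q p

theorem SX_col_out {B : Set V} {b : V → Bool} {w : V} (h : br w ∉ B) :
    col (flp B b) w = col b w := by
  classical
  show flp B b (br w) = b (br w)
  simp [flp, h]

theorem SX_col_in {B : Set V} {b : V → Bool} {w : V} (h : br w ∈ B) :
    col (flp B b) w = !(col b w) := by
  classical
  show flp B b (br w) = !(b (br w))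
  simp [flp, h]

theorem SX_nb_out {x : V} {m n : ℕ} {K : Finset V} {w : V} (h : w ∈ N3_nb x m n K) :
    br w ∉ SX_B x m n K := fun h' => h' w h rfl

theorem SX_CC {b : V → Bool} {x : V} {m n : ℕ} {K : Finset V} :
    N3_CC (col (flp (SX_B x m n K) b)) x m n K ↔ N3_CC (col b) x m n K := by
  constructor
  · exact N3_loc1 fun w hw => SX_col_out (SX_nb_out hw)
  · exact N3_loc1 fun w hw => (SX_col_out (SX_nb_out hw)).symm

open Classical in
/-- Three different black crossing clusters after the flip. -/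
theorem SX_U (hTC : DP.TC_stmt) {b : V → Bool} {x : V} {m n : ℕ} {K : Finset V}
    (hx : Even (x.1 + x.2)) (hm : 1 ≤ m) (hmn : m < n) (hK : N3_CC (col b) x m n K)
    (hR : SX_R (col (flp (SX_B x m n K) b)) x m n K) : Three (col b) x m n := by
  set B := SX_B x m n K with hB
  set c' := col (flp B b) with hc'
  have hK' : N3_CC c' x m n K := SX_CC.2 hK
  set c'' : V → Bool := fun w => if br w ∈ B then c' w else true with hc''
  have up : ∀ w, c' w = true → c'' w = true := by
    intro w hw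
    simp only [hc'']
    split_ifs
    · exact hw
    · rfl
  obtain ⟨q, hcq, hq, hrob⟩ := hR
  obtain ⟨k, hk, hkK⟩ := hK'
  obtain ⟨hkbd, k', hk', hkk'⟩ := hk
  have hkmem : k ∈ K := by rw [hkK]; exact N3_memcl.2 (DP.Con.refl hkk'.1)
  obtain ⟨hqbd, u, hu, hqu⟩ := hq
  rw [hcq] at hqu
  -- `k` and `q` are not connected
  have stepC : ¬ Conn c'' true (ann x m n) q k := by
    intro hcon
    have key : Conn c' true (ann x m n) q k := by
      refine Con.induct hcon (fun z => Conn c' true (ann x m n) q z) (DP.Con.refl hqu.1) ?_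
      intro z z' _ hz' hzz' _ ih
      by_cases hc : c' z' = true
      · exact DP.Con.tail ih hzz' ⟨hz'.1, hc⟩
      · exfalso
        have hzB : br z' ∉ B := by
          intro h
          have h2 := hz'.2
          simp only [hc'', h, if_true] at h2
          exact hc h2
        have : ∃ w ∈ N3_nb x m n K, br w = br z' := by
          by_contra hno
          push Not at hno
          exact hzB hno
        obtain ⟨w, hw, hwz⟩ := this
        have hmono : ∀ a, c' a = true → rc c' z' true a = true := by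
          intro a ha
          unfold rc
          split_ifs
          · rfl
          · exact ha
        have h1 : Conn (rc c' z' true) true (ann x m n) q z :=
          SX_mono hmono ih
        have h2 : Conn (rc c' z' true) true (ann x m n) q z' :=
          DP.Con.tail h1 hzz' ⟨hz'.1, by unfold rc; simp⟩
        have hwt : rc c' z' true w = true := by unfold rc; simp [hwz]
        have h3 : Conn (rc c' z' true) true (ann x m n) q w := by
          by_cases he : z' = w
          · rw [← he]; exact h2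
          · exact DP.Con.tail h2 (br_adj hwz.symm he) ⟨hw.1, hwt⟩
        have hKt : ∀ a ∈ K, a ∈ ann x m n ∧ c' a = true := by
          intro a ha
          rw [hkK] at ha
          exact ⟨(N3_memcl.1 ha).mem_right, (N3_memcl.1 ha).colour_right⟩
        rcases hw.2 with h | ⟨a, ha, haw⟩
        · exact hrob z' hz'.1 w h h3
        · refine hrob z' hz'.1 a ha (DP.Con.tail h3 ?_ ⟨(hKt a ha).1, hmono a (hKt a ha).2⟩)
          exact haw.symm
    refine hrob k hkk'.1.1 k hkmem ?_
    refine SX_mono ?_ key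
    intro a ha
    unfold rc
    split_ifs
    · rfl
    · exact ha
  -- four arms of `c''`
  have hfour : four c'' x m n := by
    refine ⟨k, hkbd, q, hqbd, ⟨k', hk', SX_mono up hkk'⟩,
      ⟨u, hu, SX_mono up hqu⟩, fun h => stepC h.symm⟩
  obtain ⟨q₁, hq₁, q₂, hq₂, ⟨u₁, hu₁, hc₁⟩, ⟨u₂, hu₂, hc₂⟩, hq⟩ := (hTC c'' x m n hx hm hmn).2 hfour
  have down : ∀ w, c'' w = false → br w ∈ B ∧ col b w = true := by
    intro w hw
    by_cases h : br w ∈ B
    · refine ⟨h, ?_⟩
      simp only [hc'', h, if_true, hc'] at hw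
      rw [SX_col_in h] at hw
      simpa using hw
    · simp [hc'', h] at hw
  have hKc : N3_CC (col b) x m n K := hK
  obtain ⟨l, hl, hlK⟩ := hKc
  have out : ∀ w, c'' w = false → w ∉ K := by
    intro w hw hwK
    have h := (down w hw).1
    have hwn : w ∈ N3_nb x m n K := by
      rw [hlK] at hwK ⊢
      exact ⟨(N3_memcl.1 hwK).mem_right, Or.inl hwK⟩
    exact SX_nb_out hwn h
  have hcon₁ : Conn (col b) true (ann x m n) q₁ u₁ :=
    SX_mono (fun a ha => (down a ha).2) hc₁
  have hcon₂ : Conn (col b) true (ann x m n) q₂ u₂ :=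
    SX_mono (fun a ha => (down a ha).2) hc₂
  have o₁ : q₁ ∉ K := out q₁ hc₁.1.2
  have o₂ : q₂ ∉ K := out q₂ hc₂.1.2
  refine ⟨l, hl.1, q₁, hq₁, q₂, hq₂, hl.2, ⟨u₁, hu₁, hcon₁⟩, ⟨u₂, hu₂, hcon₂⟩, ?_, ?_, ?_⟩
  · intro h
    exact o₁ (by rw [hlK]; exact N3_memcl.2 h)
  · intro h
    apply hq
    refine Con.mono ?_ (Con.cluster h)
    intro z hz
    have hz' : Conn (col b) true (ann x m n) q₁ z := hz
    refine ⟨hz'.mem_right, ?_⟩
    have hav := N3_avoid hK o₁ hz'
    have hzB : br z ∈ B := fun v hv => hav v hv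
    simp only [hc'', hzB, if_true, hc']
    rw [SX_col_in hzB, hz'.colour_right]
    rfl
  · intro h
    exact o₂ (by rw [hlK]; exact N3_memcl.2 h)

/-! ## Triples of crossing clusters -/

/-- Three different black crossing clusters. -/
def SX_E (x : V) (m n : ℕ) (p : Finset V × Finset V × Finset V) : Set (V → Bool) :=
  Ev fun c => N3_CC c x m n p.1 ∧ N3_CC c x m n p.2.1 ∧ N3_CC c x m n p.2.2 ∧ p.1 ≠ p.2.1 ∧
    p.2.1 ≠ p.2.2 ∧ p.1 ≠ p.2.2

/-- The sites of the three clusters and their neighbours. -/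
def SX_S (x : V) (m n : ℕ) (p : Finset V × Finset V × Finset V) : Set V :=
  N3_nb x m n p.1 ∪ N3_nb x m n p.2.1 ∪ N3_nb x m n p.2.2

theorem SX_S_sub (x : V) (m n : ℕ) (p : Finset V × Finset V × Finset V) :
    SX_S x m n p ⊆ ann x m n := by
  rintro v ((h | h) | h) <;> exact h.1

theorem SX_E_loc (x : V) (m n : ℕ) (p : Finset V × Finset V × Finset V) :
    Loc (SX_E x m n p) (SX_S x m n p) := by
  refine Loc.ev ((DP.ann_finite x m n).subset (SX_S_sub x m n p)) ?_
  have key : ∀ c c' : V → Bool, (∀ v ∈ SX_S x m n p, c v = c' v) →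
      (N3_CC c x m n p.1 ∧ N3_CC c x m n p.2.1 ∧ N3_CC c x m n p.2.2 ∧ p.1 ≠ p.2.1 ∧
        p.2.1 ≠ p.2.2 ∧ p.1 ≠ p.2.2) →
      (N3_CC c' x m n p.1 ∧ N3_CC c' x m n p.2.1 ∧ N3_CC c' x m n p.2.2 ∧ p.1 ≠ p.2.1 ∧
        p.2.1 ≠ p.2.2 ∧ p.1 ≠ p.2.2) := by
    rintro c c' h ⟨h1, h2, h3, h4⟩
    exact ⟨N3_loc1 (fun w hw => h w (Or.inl (Or.inl hw))) h1,
      N3_loc1 (fun w hw => h w (Or.inl (Or.inr hw))) h2,
      N3_loc1 (fun w hw => h w (Or.inr hw)) h3, h4⟩
  exact fun c c' h => ⟨key c c' h, key c' c fun v hv => (h v hv).symm⟩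

/-- The fresh region. -/
def SX_H (x : V) (m n : ℕ) (p : Finset V × Finset V × Finset V) : Set V :=
  {w | w ∈ ann x m n ∧ ∀ v ∈ SX_S x m n p, br v ≠ br w}

/-- A black crossing of the fresh region. -/
def SX_G (x : V) (m n : ℕ) (p : Finset V × Finset V × Finset V) : Set (V → Bool) :=
  Ev fun c => ∃ u ∈ bd x m, ∃ u' ∈ bd x n, Conn c true (SX_H x m n p) u u'

theorem SX_G_loc (x : V) (m n : ℕ) (p : Finset V × Finset V × Finset V) :
    Loc (SX_G x m n p) (SX_H x m n p) := by
  refine Loc.ev ((DP.ann_finite x m n).subset fun _ h => h.1) ?_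
  intro c c' h
  constructor
  · rintro ⟨u, hu, u', hu', hc⟩
    exact ⟨u, hu, u', hu', (Conn.congr h).1 hc⟩
  · rintro ⟨u, hu, u', hu', hc⟩
    exact ⟨u, hu, u', hu', (Conn.congr h).2 hc⟩

/-- Four different black crossing clusters. -/
def SX_F (c : V → Bool) (x : V) (m n : ℕ) : Prop :=
  ∃ K L M N : Finset V, (N3_CC c x m n K ∧ N3_CC c x m n L ∧ N3_CC c x m n M ∧ N3_CC c x m n N) ∧
    K ≠ L ∧ K ≠ M ∧ K ≠ N ∧ L ≠ M ∧ L ≠ N ∧ M ≠ N

theorem SX_F_loc (x : V) (m n : ℕ) : Loc (Ev fun c => SX_F c x m n) (ann x m n) := by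
  refine Loc.ev (DP.ann_finite x m n) ?_
  have key : ∀ c c' : V → Bool, (∀ v ∈ ann x m n, c v = c' v) → SX_F c x m n → SX_F c' x m n := by
    rintro c c' h ⟨K, L, M, N, ⟨h1, h2, h3, h4⟩, h5⟩
    exact ⟨K, L, M, N, ⟨N3_loc1 (fun w hw => h w hw.1) h1, N3_loc1 (fun w hw => h w hw.1) h2,
      N3_loc1 (fun w hw => h w hw.1) h3, N3_loc1 (fun w hw => h w hw.1) h4⟩, h5⟩
  exact fun c c' h => ⟨key c c' h, key c' c fun v hv => (h v hv).symm⟩

theorem SX_fourth {b : V → Bool} {x : V} {m n : ℕ} {p : Finset V × Finset V × Finset V}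
    (hE : b ∈ SX_E x m n p) (hT : SX_F (col b) x m n) : b ∈ SX_G x m n p := by
  obtain ⟨h1, h2, h3, _, _, _⟩ := hE
  -- a crossing cluster different from the three
  have main : ∀ M, N3_CC (col b) x m n M → M ≠ p.1 → M ≠ p.2.1 → M ≠ p.2.2 →
      b ∈ SX_G x m n p := by
    rintro M ⟨s, ⟨hs, s', hs', hc⟩, rfl⟩ n1 n2 n3
    refine ⟨s, hs, s', hs', ?_⟩
    refine Con.mono ?_ (Con.cluster hc)
    intro z hz
    have hz' : Conn (col b) true (ann x m n) s z := hz
    have no : ∀ K, N3_CC (col b) x m n K → N3_cl (col b) x m n s ≠ K → s ∉ K := by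
      rintro K ⟨k, _, rfl⟩ hne hsK
      exact hne (N3_cl_eq (N3_memcl.1 hsK)).symm
    refine ⟨⟨hz'.mem_right, ?_⟩, hz'.colour_right⟩
    rintro y ((hy | hy) | hy)
    · exact N3_avoid h1 (no _ h1 n1) hz' y hy
    · exact N3_avoid h2 (no _ h2 n2) hz' y hy
    · exact N3_avoid h3 (no _ h3 n3) hz' y hy
  obtain ⟨K, L, M, N, ⟨hK, hL, hM, hN⟩, d1, d2, d3, d4, d5, d6⟩ := hT
  by_contra hcon
  have one : ∀ X, N3_CC (col b) x m n X → X = p.1 ∨ X = p.2.1 ∨ X = p.2.2 := by
    intro X hX
    by_contra h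
    push Not at h
    exact hcon (main X hX h.1 h.2.1 h.2.2)
  rcases one K hK with e1 | e1 | e1 <;> rcases one L hL with e2 | e2 | e2 <;>
    rcases one M hM with e3 | e3 | e3 <;> rcases one N hN with e4 | e4 | e4 <;>
    first
      | exact d1 (e1.trans e2.symm)
      | exact d2 (e1.trans e3.symm)
      | exact d3 (e1.trans e4.symm)
      | exact d4 (e2.trans e3.symm)
      | exact d5 (e2.trans e4.symm)
      | exact d6 (e3.trans e4.symm)

/-- Triples of sets of sites. -/
noncomputable def SX_P (x : V) (m n : ℕ) : Finset (Finset V × Finset V × Finset V) :=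
  (N3_A x m n).powerset ×ˢ ((N3_A x m n).powerset ×ˢ (N3_A x m n).powerset)

theorem SX_pow {c : V → Bool} {x : V} {m n : ℕ} {K : Finset V} (hK : N3_CC c x m n K) :
    K ∈ (N3_A x m n).powerset := by
  obtain ⟨k, _, rfl⟩ := hK
  exact Finset.mem_powerset.2 fun v hv => N3_memA.2 (N3_memcl.1 hv).mem_right

theorem SX_three {b : V → Bool} {x : V} {m n : ℕ} (hT : Three (col b) x m n) :
    ∃ K L M : Finset V, N3_CC (col b) x m n K ∧ N3_CC (col b) x m n L ∧ N3_CC (col b) x m n M ∧
      K ≠ L ∧ L ≠ M ∧ K ≠ M := by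
  obtain ⟨u, hu, v, hv, w, hw, hxu, hxv, hxw, huv, hvw, huw⟩ := hT
  have ne : ∀ s t, (∃ t' ∈ bd x n, Conn (col b) true (ann x m n) t t') → t ∈ bd x m →
      ¬ Conn (col b) true (ann x m n) s t →
      N3_cl (col b) x m n s ≠ N3_cl (col b) x m n t := by
    intro s t hxt ht hn he
    apply hn
    have : t ∈ N3_cl (col b) x m n s := by
      rw [he]
      exact N3_memcl.2 (N3_X_self ⟨ht, hxt⟩)
    exact N3_memcl.1 this
  exact ⟨_, _, _, ⟨u, ⟨hu, hxu⟩, rfl⟩, ⟨v, ⟨hv, hxv⟩, rfl⟩, ⟨w, ⟨hw, hxw⟩, rfl⟩,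
    ne u v hxv hv huv, ne v w hxw hw hvw, ne u w hxw hw huw⟩

/-- On `Three` every crossing cluster is the first one of a triple. -/
theorem SX_first {b : V → Bool} {x : V} {m n : ℕ} {X : Finset V} (hT : Three (col b) x m n)
    (hX : N3_CC (col b) x m n X) : ∃ q : Finset V × Finset V,
      q ∈ (N3_A x m n).powerset ×ˢ (N3_A x m n).powerset ∧ b ∈ SX_E x m n (X, q) := by
  obtain ⟨K, L, M, hK, hL, hM, h1, h2, h3⟩ := SX_three hT
  by_cases hXK : X = K
  · refine ⟨(L, M), Finset.mk_mem_product (SX_pow hL) (SX_pow hM), hX, hL, hM, ?_, h2, ?_⟩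
    · show X ≠ L
      rw [hXK]; exact h1
    · show X ≠ M
      rw [hXK]; exact h3
  · by_cases hXL : X = L
    · refine ⟨(K, M), Finset.mk_mem_product (SX_pow hK) (SX_pow hM), hX, hK, hM, hXK, h3, ?_⟩
      show X ≠ M
      rw [hXL]; exact h2
    · exact ⟨(K, L), Finset.mk_mem_product (SX_pow hK) (SX_pow hL), hX, hK, hL, hXK, h1, hXL⟩

theorem SX_E_three {b : V → Bool} {x : V} {m n : ℕ} {p : Finset V × Finset V × Finset V}
    (hE : b ∈ SX_E x m n p) : Three (col b) x m n := by
  obtain ⟨h1, h2, h3, h4, h5, h6⟩ := hE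
  exact N3_three_of h1 h2 h3 h4 h5 h6

open Classical in
theorem SX_count (b : V → Bool) (x : V) (m n : ℕ) (hT : ¬ SX_F (col b) x m n) :
    ((SX_P x m n).filter fun p => b ∈ SX_E x m n p).card ≤ 6 := by
  by_cases hne : ((SX_P x m n).filter fun p => b ∈ SX_E x m n p).Nonempty
  · obtain ⟨⟨K, L, M⟩, hp⟩ := hne
    rw [Finset.mem_filter] at hp
    obtain ⟨_, hK, hL, hM, h1, h2, h3⟩ := hp
    change K ≠ L at h1
    change L ≠ M at h2
    change K ≠ M at h3
    have one : ∀ X, N3_CC (col b) x m n X → X = K ∨ X = L ∨ X = M := by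
      intro X hX
      by_contra h
      push Not at h
      exact hT ⟨K, L, M, X, ⟨hK, hL, hM, hX⟩, h1, h3, h.1.symm, h2, h.2.1.symm, h.2.2.symm⟩
    have hsub : ((SX_P x m n).filter fun p => b ∈ SX_E x m n p) ⊆
        {(K, L, M), (K, M, L), (L, K, M), (L, M, K), (M, K, L), (M, L, K)} := by
      rintro ⟨K', L', M'⟩ hp'
      rw [Finset.mem_filter] at hp'
      obtain ⟨_, hK', hL', hM', g1, g2, g3⟩ := hp'
      change K' ≠ L' at g1
      change L' ≠ M' at g2
      change K' ≠ M' at g3
      simp only [Finset.mem_insert, Finset.mem_singleton, Prod.mk.injEq]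
      rcases one K' hK' with e1 | e1 | e1 <;> rcases one L' hL' with e2 | e2 | e2 <;>
        rcases one M' hM' with e3 | e3 | e3 <;>
        first
          | exact absurd (e1.trans e2.symm) g1
          | exact absurd (e2.trans e3.symm) g2
          | exact absurd (e1.trans e3.symm) g3
          | exact Or.inl ⟨e1, e2, e3⟩
          | exact Or.inr (Or.inl ⟨e1, e2, e3⟩)
          | exact Or.inr (Or.inr (Or.inl ⟨e1, e2, e3⟩))
          | exact Or.inr (Or.inr (Or.inr (Or.inl ⟨e1, e2, e3⟩)))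
          | exact Or.inr (Or.inr (Or.inr (Or.inr (Or.inl ⟨e1, e2, e3⟩))))
          | exact Or.inr (Or.inr (Or.inr (Or.inr (Or.inr ⟨e1, e2, e3⟩))))
    exact (Finset.card_le_card hsub).trans Finset.card_le_six
  · rw [Finset.not_nonempty_iff_eq_empty] at hne
    rw [hne]
    simp

/-- The expected number of triples of crossing clusters. -/
theorem SX_triples (hi : Bindep_stmt) (hz : Bzero_stmt) (x : V) (m n : ℕ)
    (hd : Pr (Ev fun c => reach c true x m n) ≤ 1 / 2) :
    ∑ p ∈ SX_P x m n, Pr (SX_E x m n p) ≤ 12 * Pr (Ev fun c => Three c x m n) := by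
  classical
  set T : Set (V → Bool) := Ev fun c => SX_F c x m n with hTdef
  set F : Set (V → Bool) := Ev fun c => Three c x m n with hFdef
  have mT : MeasurableSet T := (SX_F_loc x m n).measurableSet
  have mF : MeasurableSet F := (N3_three_loc x m n).measurableSet
  have mE : ∀ p, MeasurableSet (SX_E x m n p) := fun p => (SX_E_loc x m n p).measurableSet
  have : IsProbabilityMeasure P1 := by unfold P1; infer_instance
  have s2 : ∑ p ∈ SX_P x m n, Pr (SX_E x m n p ∩ Tᶜ) ≤ 6 * Pr F := by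
    have e1 : ∀ p, Pr (SX_E x m n p ∩ Tᶜ) =
        ∫ b, (SX_E x m n p ∩ Tᶜ).indicator (fun _ => (1 : ℝ)) b ∂P1 := by
      intro p
      rw [integral_indicator_const _ ((mE p).inter mT.compl)]
      simp [Pr]
    have e2 : 6 * Pr F = ∫ b, F.indicator (fun _ => (6 : ℝ)) b ∂P1 := by
      rw [integral_indicator_const _ mF]
      simp [Pr, mul_comm]
    simp_rw [e1]
    rw [e2, ← integral_finsetSum]
    · refine integral_mono ?_ ?_ ?_
      · refine integrable_finsetSum _ fun p _ => ?_
        exact (integrable_const (1 : ℝ)).indicator ((mE p).inter mT.compl)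
      · exact (integrable_const (6 : ℝ)).indicator mF
      · intro b
        show ∑ p ∈ SX_P x m n, (SX_E x m n p ∩ Tᶜ).indicator (fun _ => (1 : ℝ)) b ≤ F.indicator (fun _ => (6 : ℝ)) b
        by_cases hbT : b ∈ T
        · have z : ∑ p ∈ SX_P x m n, (SX_E x m n p ∩ Tᶜ).indicator (fun _ => (1 : ℝ)) b = 0 := by
            refine Finset.sum_eq_zero fun p _ => ?_
            rw [Set.indicator_of_notMem]
            exact fun h => h.2 hbT
          rw [z]
          exact Set.indicator_nonneg (fun _ _ => by norm_num) _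
        · have hsum : ∑ p ∈ SX_P x m n, (SX_E x m n p ∩ Tᶜ).indicator (fun _ => (1 : ℝ)) b =
              (((SX_P x m n).filter fun p => b ∈ SX_E x m n p).card : ℝ) := by
            rw [Finset.card_filter, Nat.cast_sum]
            refine Finset.sum_congr rfl fun p _ => ?_
            by_cases hp : b ∈ SX_E x m n p
            · rw [Set.indicator_of_mem (show b ∈ SX_E x m n p ∩ Tᶜ from ⟨hp, hbT⟩)]
              simp [hp]
            · rw [Set.indicator_of_notMem (fun h => hp h.1)]
              simp [hp]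
          rw [hsum]
          by_cases hne : ((SX_P x m n).filter fun p => b ∈ SX_E x m n p).Nonempty
          · obtain ⟨p, hp⟩ := hne
            have hbF : b ∈ F := SX_E_three (Finset.mem_filter.1 hp).2
            rw [Set.indicator_of_mem hbF]
            exact_mod_cast SX_count b x m n hbT
          · rw [Finset.not_nonempty_iff_eq_empty] at hne
            rw [hne]
            simp only [Finset.card_empty, Nat.cast_zero]
            exact Set.indicator_nonneg (fun _ _ => by norm_num) _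
    · intro p _
      exact (integrable_const (1 : ℝ)).indicator ((mE p).inter mT.compl)
  have s3 : ∀ p, Pr (SX_E x m n p ∩ T) ≤ 1 / 2 * Pr (SX_E x m n p) := by
    intro p
    have hsub : SX_E x m n p ∩ T ⊆ SX_E x m n p ∩ SX_G x m n p :=
      fun b hb => ⟨hb.1, SX_fourth hb.1 hb.2⟩
    have hle : Pr (SX_E x m n p ∩ T) ≤ Pr (SX_E x m n p ∩ SX_G x m n p) := by
      unfold Pr
      exact measureReal_mono hsub (measure_ne_top _ _)
    have hdis : BDis (SX_S x m n p) (SX_H x m n p) := fun v hv w hw => hw.2 v hv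
    rw [N3_indep hi hz (SX_E_loc x m n p) (SX_G_loc x m n p) hdis] at hle
    have hG : Pr (SX_G x m n p) ≤ 1 / 2 := by
      refine le_trans ?_ hd
      unfold Pr
      refine measureReal_mono ?_ (measure_ne_top _ _)
      rintro b ⟨u, hu, u', hu', hc⟩
      exact ⟨u, u', le_of_eq hu, le_of_eq hu'.symm, Conn.mono (Set.subset_univ _) hc⟩
    have hE0 : 0 ≤ Pr (SX_E x m n p) := by unfold Pr; exact measureReal_nonneg
    calc _ ≤ _ := hle
      _ ≤ Pr (SX_E x m n p) * (1 / 2) := mul_le_mul_of_nonneg_left hG hE0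
      _ = _ := mul_comm _ _
  have s4 : ∀ p, Pr (SX_E x m n p) = Pr (SX_E x m n p ∩ T) + Pr (SX_E x m n p ∩ Tᶜ) := by
    intro p
    unfold Pr
    rw [← Set.sdiff_eq]
    exact (measureReal_inter_add_sdiff mT (measure_ne_top _ _)).symm
  have s5 : ∑ p ∈ SX_P x m n, Pr (SX_E x m n p) ≤
      1 / 2 * ∑ p ∈ SX_P x m n, Pr (SX_E x m n p) + 6 * Pr F := by
    calc ∑ p ∈ SX_P x m n, Pr (SX_E x m n p) =
        ∑ p ∈ SX_P x m n, (Pr (SX_E x m n p ∩ T) + Pr (SX_E x m n p ∩ Tᶜ)) :=
          Finset.sum_congr rfl fun p _ => s4 p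
      _ = ∑ p ∈ SX_P x m n, Pr (SX_E x m n p ∩ T) + ∑ p ∈ SX_P x m n, Pr (SX_E x m n p ∩ Tᶜ) :=
          Finset.sum_add_distrib
      _ ≤ ∑ p ∈ SX_P x m n, 1 / 2 * Pr (SX_E x m n p) + 6 * Pr F :=
          add_le_add (Finset.sum_le_sum fun p _ => s3 p) s2
      _ = _ := by rw [Finset.mul_sum]
  linarith

/-- The switching inequality for the flipped robust event. -/
theorem SX_main (hTC : DP.TC_stmt) (hi : Bindep_stmt) (hz : Bzero_stmt) (x : V) (m n : ℕ)
    (hx : Even (x.1 + x.2)) (hm : 1 ≤ m) (hmn : m < n)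
    (hd : Pr (Ev fun c => reach c true x m n) ≤ 1 / 2) :
    Pr (Ev fun c => six (fl c) x m n) ≤ 12 * Pr (Ev fun c => Three c x m n) := by
  classical
  have : IsProbabilityMeasure P1 := by unfold P1; infer_instance
  set A := (N3_A x m n).powerset with hA
  set T : Set (V → Bool) := Ev fun c => Three c x m n with hT
  -- union bound
  have h1 : Pr (Ev fun c => six (fl c) x m n) ≤
      ∑ K ∈ A, Pr (Ev fun c => N3_CC c x m n K ∧ SX_R c x m n K) := by
    have hsub : (Ev fun c => six (fl c) x m n) ⊆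
        ⋃ K ∈ A, (Ev fun c => N3_CC c x m n K ∧ SX_R c x m n K) := by
      rintro b ⟨p, q, hp, hq, ⟨hpb, u, hu, hpu⟩, ⟨hqb, v, hv, hqv⟩, hrob⟩
      have ec : ∀ w, (fl (col b)) w = false → col b w = true := by
        intro w hw
        simpa [fl] using hw
      have econ : ∀ s t, Conn (fl (col b)) false (ann x m n) s t →
          Conn (col b) true (ann x m n) s t :=
        fun s t h => SX_mono ec h
      rw [hp] at hpu
      rw [hq] at hqv
      have hCC : N3_CC (col b) x m n (N3_cl (col b) x m n p) :=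
        ⟨p, ⟨hpb, u, hu, econ _ _ hpu⟩, rfl⟩
      refine Set.mem_biUnion (SX_pow hCC) ⟨hCC, q, ec q hq, ⟨hqb, v, hv, ?_⟩, ?_⟩
      · rw [ec q hq]
        exact econ _ _ hqv
      · intro w hw a ha hcon
        apply hrob w hw
        have efl : ∀ z, rc (col b) w true z = true → rc (fl (col b)) w false z = false := by
          intro z hz
          unfold rc at hz ⊢
          split_ifs with h
          · rfl
          · rw [if_neg h] at hz
            simp [fl, hz]
        have g1 : Conn (rc (col b) w true) true (ann x m n) p a := by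
          refine SX_mono ?_ (N3_memcl.1 ha)
          intro z hz
          unfold rc
          split_ifs
          · rfl
          · exact hz
        have g2 : Conn (rc (col b) w true) true (ann x m n) p q := g1.trans hcon.symm
        exact SX_mono efl g2
    unfold Pr
    exact (measureReal_mono hsub (measure_ne_top _ _)).trans (measureReal_biUnion_finset_le _ _)
  -- the flip
  have h2 : ∀ K ∈ A, Pr (Ev fun c => N3_CC c x m n K ∧ SX_R c x m n K) ≤
      ∑ q ∈ A ×ˢ A, Pr (SX_E x m n (K, q)) := by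
    intro K _
    rw [← SX_flip (SX_B x m n K)]
    have hsub : {b | flp (SX_B x m n K) b ∈ Ev fun c => N3_CC c x m n K ∧ SX_R c x m n K} ⊆
        ⋃ q ∈ A ×ˢ A, SX_E x m n (K, q) := by
      rintro b ⟨hK, hR⟩
      have hKb : N3_CC (col b) x m n K := SX_CC.1 hK
      obtain ⟨q, hq, hE⟩ := SX_first (SX_U hTC hx hm hmn hKb hR) hKb
      exact Set.mem_biUnion hq hE
    unfold Pr
    exact (measureReal_mono hsub (measure_ne_top _ _)).trans (measureReal_biUnion_finset_le _ _)
  calc _ ≤ _ := h1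
    _ ≤ ∑ K ∈ A, ∑ q ∈ A ×ˢ A, Pr (SX_E x m n (K, q)) := Finset.sum_le_sum h2
    _ = ∑ p ∈ SX_P x m n, Pr (SX_E x m n p) := by
        unfold SX_P
        rw [← hA, Finset.sum_product]
    _ ≤ _ := SX_triples hi hz x m n hd

/-- **SIXU.** -/
theorem SIXU (hTC : DP.TC_stmt) (hi : Bindep_stmt) (hz : Bzero_stmt) (h2 : C2_stmt) :
    SIXU_stmt := by
  obtain ⟨C, hC, α, hα, h⟩ := h2
  obtain ⟨k, hk⟩ : ∃ k : ℕ, C * (2 : ℝ) ^ (-(α * (k : ℝ))) ≤ 1 / 2 := by
    have ht : Filter.Tendsto (fun k : ℕ => C * (2 : ℝ) ^ (-(α * (k : ℝ)))) Filter.atTop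
        (nhds (C * 0)) := by
      refine Filter.Tendsto.const_mul _ ?_
      have e : (fun k : ℕ => (2 : ℝ) ^ (-(α * (k : ℝ)))) = fun k : ℕ => ((2 : ℝ) ^ (-α)) ^ k := by
        funext k
        rw [← Real.rpow_natCast, ← Real.rpow_mul (by norm_num)]
        congr 1
        ring
      rw [e]
      refine tendsto_pow_atTop_nhds_zero_of_lt_one (by positivity) ?_
      exact Real.rpow_lt_one_of_one_lt_of_neg (by norm_num) (by linarith)
    rw [mul_zero] at ht
    have := (ht.eventually (gt_mem_nhds (show (0 : ℝ) < 1 / 2 by norm_num))).exists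
    obtain ⟨k, hk⟩ := this
    exact ⟨k, hk.le⟩
  refine ⟨12, k + 1, by norm_num, ?_⟩
  intro p q _ hpq
  have hlt : p < q := by omega
  have hle : (2 : ℕ) ^ p < 2 ^ q := Nat.pow_lt_pow_right (by norm_num) hlt
  have h1 : Pr (Ev fun c => reach c true 0 (2 ^ p) (2 ^ q)) ≤ 1 / 2 := by
    refine le_trans (h true 0 (2 ^ p) (2 ^ q) Nat.one_le_two_pow hle.le) (le_trans ?_ hk)
    refine mul_le_mul_of_nonneg_left ?_ hC.le
    have e : ((2 ^ p : ℕ) : ℝ) / ((2 ^ q : ℕ) : ℝ) = (2 : ℝ) ^ (-((q : ℝ) - p)) := by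
      push_cast
      rw [← Real.rpow_natCast 2 p, ← Real.rpow_natCast 2 q, ← Real.rpow_sub (by norm_num)]
      congr 1
      ring
    rw [e, ← Real.rpow_mul (by norm_num)]
    refine Real.rpow_le_rpow_of_exponent_le (by norm_num) ?_
    have : (k : ℝ) ≤ (q : ℝ) - p := by
      have : ((k + p : ℕ) : ℝ) ≤ q := by exact_mod_cast (by omega : k + p ≤ q)
      push_cast at this
      linarith
    nlinarith
  have hmain := SX_main hTC hi hz 0 (2 ^ p) (2 ^ q) (by simp) Nat.one_le_two_pow hle h1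
  have hflip : Pr (Ev fun c => six c 0 (2 ^ p) (2 ^ q)) =
      Pr (Ev fun c => six (fl c) 0 (2 ^ p) (2 ^ q)) := by
    rw [← SX_flip Set.univ]
    congr 1
    ext b
    have : col (flp Set.univ b) = fl (col b) := by
      funext w
      rw [SX_col_in (Set.mem_univ _)]
      rfl
    show six (col (flp Set.univ b)) 0 (2 ^ p) (2 ^ q) ↔ six (fl (col b)) 0 (2 ^ p) (2 ^ q)
    rw [this]
  rw [hflip]
  exact hmain

end TP
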